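import Mathlib
import Pool.Agent.H991.PS.Fin2
import Pool.Agent.H682.DU.Main
import Pool.Agent.H682.DU.Pot

/-!
# Lattice Yang-Mills theory: the deconfinement transition for every temperature

Wilson's lattice gauge theory on the infinite lattice `ℤ^D × ℤ/t`, in any space dimension `D ≥ 2`,
with gauge group any closed connected subgroup `G` of `U(N)` with a finite centre `Z`; `t` is the
inverse temperature in lattice units. We describe the Gibbs states (the infinite volume equilibrium
states, solutions of the DLR equations) at strong and at weak coupling.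

* If `48 * N * D * |β| < 1` then, for every `t`, there is exactly one Gibbs state. It is invariant
  under the translations and under the centre symmetry, and it confines the charges which transform
  under the centre: the string tension is at least `log (1 / (48 * N * D * |β|))`, uniformly in `t`.
* If `β ≥ β₀` and `t ≤ β ^ κ` the centre symmetry is completely broken. For every `M` the Gibbs states
  with period `M` in all directions of space (`M = 1`: the translation invariant ones) are described
  as follows: in each extremal one there is exactly one `z ∈ Z` such that every Polyakov loop lies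
  within `ε` of `z` up to the probability `exp (-β ^ κ)`; for each `z ∈ Z` there are such states; and
  every state with period `M` is a mixture of at most `|Z|` states with period `M`, each of which is
  ordered near one `z` in this sense.

So, for every `t` (if `|Z| > 1`), there is a transition between `1 / (48 * N * D)` and
`max β₀ (t ^ (1 / κ))`.
-/

open MeasureTheory Matrix
open scoped Matrix.Norms.Frobenius

namespace Pool.Agent.Results.MP_7f377f_mp.DeconfinementTransition

noncomputable section

/-- Complex `N × N` matrices. -/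
abbrev Mt (N : ℕ) := Matrix (Fin N) (Fin N) ℂ

/-- The unitary group `U(N)`. -/
abbrev UU (N : ℕ) := Matrix.unitaryGroup (Fin N) ℂ

/-- The matrix of an element of a subgroup of `U(N)`. -/
def mt {N : ℕ} {G : Subgroup (UU N)} (g : G) : Mt N := ((g : UU N) : Mt N)

/-- The sites of the lattice `ℤ^D × ℤ/t`. -/
abbrev Site (D t : ℕ) := (Fin D → ℤ) × ZMod t

/-- The links: the link `(x, i)` leads from `x` to `x + unit i`; the last direction is time. -/
abbrev Link (D t : ℕ) := Site D t × Fin (D + 1)

/-- The unit vectors. -/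
def unit (D t : ℕ) : Fin (D + 1) → Site D t := Fin.lastCases (0, 1) fun i => (Pi.single i 1, 0)

section

variable {N D t : ℕ} {G : Subgroup (UU N)}

/-- The product of the link variables around the plaquette at `x` in the directions `i`, `j`. -/
def plaq (U : Link D t → G) (x : Site D t) (i j : Fin (D + 1)) : G :=
  U (x, i) * U (x + unit D t i, j) * (U (x + unit D t j, i))⁻¹ * (U (x, j))⁻¹

/-- The plaquette at `x` in the directions `i < j`, for `p = (x, i, j)`, contains a link of `Λ`. -/
def touches (Λ : Finset (Link D t)) (p : Site D t × Fin (D + 1) × Fin (D + 1)) : Prop :=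
  p.2.1 < p.2.2 ∧ ((p.1, p.2.1) ∈ Λ ∨ (p.1 + unit D t p.2.1, p.2.2) ∈ Λ ∨
    (p.1 + unit D t p.2.2, p.2.1) ∈ Λ ∨ (p.1, p.2.2) ∈ Λ)

/-- The Wilson action `∑_p Re tr (1 - U_p)` of the finitely many plaquettes `p` which contain a link
of `Λ`. -/
def energy (Λ : Finset (Link D t)) (U : Link D t → G) : ℝ :=
  ∑ᶠ (p : Site D t × Fin (D + 1) × Fin (D + 1)) (_ : touches Λ p),
    (trace (1 - mt (plaq U p.1 p.2.1 p.2.2))).re

/-- The configuration `U` with the variables of the links in `Λ` replaced by `V`. -/
def glue (Λ : Finset (Link D t)) (V : Λ → G) (U : Link D t → G) : Link D t → G :=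
  fun e => if h : e ∈ Λ then V ⟨e, h⟩ else U e

/-- The conditional expectation of `F` given the links outside `Λ` prescribed by the Gibbs
distribution at the inverse coupling `β`; `μ` is the Haar measure. -/
def specification [MeasurableSpace G] (μ : Measure G) (β : ℝ) (Λ : Finset (Link D t))
    (F : (Link D t → G) → ℝ) (U : Link D t → G) : ℝ :=
  (∫ V : Λ → G, F (glue Λ V U) * Real.exp (-(β * energy Λ (glue Λ V U)))
    ∂(Measure.pi fun _ => μ)) /
    ∫ V : Λ → G, Real.exp (-(β * energy Λ (glue Λ V U))) ∂(Measure.pi fun _ => μ)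

/-- States: measures on the configurations of the links. -/
abbrev State (G : Subgroup (UU N)) [MeasurableSpace G] (D t : ℕ) := Measure (Link D t → G)

/-- `ω` is a Gibbs state of the lattice Yang-Mills theory on `ℤ^D × ℤ/t`: it satisfies the
Dobrushin-Lanford-Ruelle equations. -/
def IsGibbs [MeasurableSpace G] (μ : Measure G) (β : ℝ) (ω : State G D t) : Prop :=
  IsProbabilityMeasure ω ∧ ∀ (Λ : Finset (Link D t)) (F : (Link D t → G) → ℝ), Continuous F →
    ∫ U, specification μ β Λ F U ∂ω = ∫ U, F U ∂ω

/-- `ω` is invariant under the translations of space and time. -/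
def Invariant [MeasurableSpace G] (ω : State G D t) : Prop :=
  ∀ i : Fin (D + 1), ω.map (fun U e => U (e.1 + unit D t i, e.2)) = ω

/-- The Polyakov loop at `x`: the product of the `t` variables of the links in the direction of time
above `x`. -/
def polyakov (U : Link D t → G) (x : Fin D → ℤ) : G :=
  ((List.range t).map fun τ : ℕ => U ((x, (τ : ZMod t)), Fin.last D)).prod

/-- The centre symmetry: the variables of all links in the direction of time at time zero are
multiplied by `z`. -/
def twist (z : G) (U : Link D t → G) : Link D t → G :=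
  fun e => if e.2 = Fin.last D ∧ e.1.2 = 0 then z * U e else U e

/-- `z` is in the centre of `G`. -/
def Central (z : G) : Prop := z ∈ Subgroup.center G

/-- `ω` is invariant under the centre symmetry. -/
def CentreSymmetric [MeasurableSpace G] (ω : State G D t) : Prop :=
  ∀ z : G, Central z → ω.map (twist z) = ω

/-- `ρ` is a unitary representation of `G`. -/
def IsRep {d : ℕ} (ρ : G → UU d) : Prop := Continuous ρ ∧ ∀ g g' : G, ρ (g * g') = ρ g * ρ g'

/-- The normalized character of a representation. -/
def character {d : ℕ} (ρ : G → UU d) (g : G) : ℂ := trace (ρ g : Mt d) / d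

/-- The static charge `ρ` transforms under the centre: some element of the centre acts as the
multiplication by `c ≠ 1`. -/
def IsCharge {d : ℕ} (ρ : G → UU d) (c : ℂ) : Prop :=
  c ≠ 1 ∧ ∃ z : G, Central z ∧ (ρ z : Mt d) = c • 1

/-- The static charges which transform under the centre are confined: the potential of the charge at
`x` and of any other charges at `y` grows at least linearly with the distance, with the slope
`log (1 / q)`, at every temperature `1 / t`. -/
def Confines [MeasurableSpace G] (q : ℝ) (ω : State G D t) : Prop :=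
  ∀ (d : ℕ) (ρ : G → UU d) (c : ℂ), IsRep ρ → IsCharge ρ c →
    ∀ h : G → ℂ, Continuous h → (∀ g, ‖h g‖ ≤ 1) → ∀ (x y : Fin D → ℤ) (i : Fin D),
      ‖∫ U, character ρ (polyakov U x) * h (polyakov U y) ∂ω‖ ≤
        (2 * q ^ (x i - y i).natAbs / ‖1 - c‖) ^ t

/-- The confined phase: there is exactly one Gibbs state; it is invariant under the translations and
under the centre symmetry, and it confines. -/
def Confined (G : Subgroup (UU N)) [MeasurableSpace G] (μ : Measure G) (D t : ℕ) (β q : ℝ) : Prop :=
  ∃ ω : State G D t, (∀ ω' : State G D t, IsGibbs μ β ω' ↔ ω' = ω) ∧ Invariant ω ∧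
    CentreSymmetric ω ∧ Confines q ω

/-- Each Polyakov loop is within `ε` of `z`, up to the probability `η`. -/
def Ordered [MeasurableSpace G] (ε η : ℝ) (z : G) (ω : State G D t) : Prop :=
  ∀ x : Fin D → ℤ, 1 - η ≤ ω.real {U | ‖mt (polyakov U x) - mt z‖ ≤ ε}

/-- `ω` has the period `M` in all directions of space. -/
def Periodic [MeasurableSpace G] (M : ℕ) (ω : State G D t) : Prop :=
  ∀ i : Fin D, ω.map (fun U e => U (e.1 + (Pi.single i (M : ℤ), 0), e.2)) = ω

/-- `ω` is a periodic equilibrium state: a Gibbs state with the period `M` in space. -/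
def IsEquilibrium [MeasurableSpace G] (μ : Measure G) (β : ℝ) (M : ℕ) (ω : State G D t) : Prop :=
  IsGibbs μ β ω ∧ Periodic M ω

/-- `ω` is a pure phase: a periodic equilibrium state which is not a mixture of other ones. -/
def IsPure [MeasurableSpace G] (μ : Measure G) (β : ℝ) (M : ℕ) (ω : State G D t) : Prop :=
  IsEquilibrium μ β M ω ∧ ∀ ω₁ ω₂ : State G D t, IsEquilibrium μ β M ω₁ →
    IsEquilibrium μ β M ω₂ → ∀ s : ℝ, 0 < s → s < 1 →
      ω = ENNReal.ofReal s • ω₁ + ENNReal.ofReal (1 - s) • ω₂ → ω₁ = ω

/-- `ω` is the sum of the measures `ν i` with the weights `p i`. -/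
def IsSum {ι Ω : Type*} [MeasurableSpace Ω] (p : ι → ℝ) (ν : ι → Measure Ω) (ω : Measure Ω) : Prop :=
  ω = Measure.sum fun i => ENNReal.ofReal (p i) • ν i

/-- `ω` is a mixture, with the weights `p z ≥ 0`, of periodic equilibrium states `ν z` in which each
Polyakov loop is within `ε` of `z`, up to the probability `η`; here `z` runs through the centre of
`G`. -/
def IsMixture [MeasurableSpace G] (μ : Measure G) (β : ℝ) (M : ℕ) (ε η : ℝ) (ω : State G D t) :
    Prop :=
  ∃ (p : G → ℝ) (ν : G → State G D t), IsSum p ν ω ∧ ∀ z : G, 0 ≤ p z ∧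
    (p z ≠ 0 → Central z ∧ IsEquilibrium μ β M (ν z) ∧ Ordered ε η z (ν z))

/-- The deconfined phases: for each period `M` there is a pure phase near each element of the centre,
each pure phase is near exactly one element of the centre, and each periodic equilibrium state is a
mixture of periodic equilibrium states near the elements of the centre. -/
def Deconfined (G : Subgroup (UU N)) [MeasurableSpace G] (μ : Measure G) (D t : ℕ) (β ε η : ℝ) :
    Prop :=
  ∀ M : ℕ, 1 ≤ M →
    (∀ z : G, Central z → ∃ ω : State G D t, IsPure μ β M ω ∧ Ordered ε η z ω) ∧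
    (∀ ω : State G D t, IsPure μ β M ω → ∃! z : G, Central z ∧ Ordered ε η z ω) ∧
    ∀ ω : State G D t, IsEquilibrium μ β M ω → IsMixture μ β M ε η ω

end

theorem result {N : ℕ} (G : Subgroup (UU N)) (hG : IsClosed (G : Set (UU N))) [ConnectedSpace G]
    [Finite (Subgroup.center G)] [MeasurableSpace G] [BorelSpace G] (μ : Measure G)
    [IsProbabilityMeasure μ] [μ.IsHaarMeasure] (D : ℕ) (hD : 2 ≤ D) :
    (∀ t : ℕ, 1 ≤ t → ∀ β : ℝ, 48 * N * D * |β| < 1 → Confined G μ D t β (48 * N * D * |β|)) ∧
    ∃ κ ε₀ : ℝ, 0 < κ ∧ 0 < ε₀ ∧ ∀ ε : ℝ, 0 < ε → ε < ε₀ → ∃ β₀ : ℝ, 0 < β₀ ∧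
      ∀ β : ℝ, β₀ ≤ β → ∀ t : ℕ, 1 ≤ t → (t : ℝ) ≤ β ^ κ →
        Deconfined G μ D t β ε (Real.exp (-β ^ κ)) := by
  refine ⟨fun t ht β hβ => ?_, ?_⟩
  · have hne : NeZero t := ⟨by omega⟩
    have hcG := Pool.Agent.N899.BB.Est.compactG hG
    have hsG : SecondCountableTopology G := Pool.Agent.N899.BB.Est.scG
    obtain ⟨ω, h1, h2, h3, h4, -, -⟩ := Pool.Agent.H682.DU.YM.main_strong G hG μ D t hβ
    refine ⟨ω, fun ω' => ⟨fun h => h2 ω' h, fun h => ?_⟩, h3, h4,
      fun d ρ c hr hc h hh hh1 x y i => ?_⟩
    · rw [h]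
      exact h1
    · obtain ⟨hρ, hmul⟩ := hr
      obtain ⟨hc1, z, hz, hρz⟩ := hc
      exact Pool.Agent.H682.DU.YM.potential hβ h1 d (MonoidHom.mk' ρ hmul) hρ z hz c hc1 hρz h hh
        hh1 x y i
  have hcG := Pool.Agent.N899.BB.Est.compactG hG
  have hsG : SecondCountableTopology G := Pool.Agent.N899.BB.Est.scG
  obtain ⟨κ, hκ, ε₀, hε₀, h⟩ := Pool.Agent.H991.PS.main_per G hG μ D hD
  refine ⟨κ, ε₀, hκ, hε₀, fun ε hε hεε => ?_⟩
  obtain ⟨β1, hβ1, h1⟩ := h ε hε hεε
  refine ⟨β1, by linarith, fun β hβ t ht1 ht M hM => ?_⟩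
  have hne : NeZero t := ⟨by omega⟩
  obtain ⟨h2, h3, h4⟩ := h1 β hβ t ht M (by omega)
  have hS : ∀ ω : State G D t, IsEquilibrium μ β M ω ↔
      Pool.Agent.H991.AP.Sol (Pool.Agent.H991.PS.EqP μ M β) ω := by
    intro ω
    rw [Pool.Agent.H991.PS.SolP_iff]
    exact and_assoc
  have hP : ∀ ω : State G D t, IsPure μ β M ω ↔
      Pool.Agent.H991.AP.Extr (Pool.Agent.H991.AP.Sol (Pool.Agent.H991.PS.EqP μ M β)) ω := by
    intro ω
    unfold IsPure Pool.Agent.H991.AP.Extr
    simp only [hS]
  refine ⟨fun z hz => ?_, fun ω hω => ?_, fun ω hω => ?_⟩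
  · obtain ⟨ω, hω, hO⟩ := h2 z hz
    exact ⟨ω, (hP ω).2 hω, hO⟩
  · exact h3 ω ((hP ω).1 hω)
  · obtain ⟨p, ν, hp, hsum⟩ := h4 ω ((hS ω).1 hω)
    classical
    refine ⟨fun g => if h : g ∈ Subgroup.center G then p ⟨g, h⟩ else 0,
      fun g => if h : g ∈ Subgroup.center G then ν ⟨g, h⟩ else 0, ?_, fun z => ?_⟩
    · unfold IsSum
      rw [hsum]
      refine Measure.ext fun E hE => ?_
      rw [Measure.sum_apply _ hE, Measure.sum_apply _ hE]
      have h5 := tsum_subtype (Subgroup.center G : Set G) (fun g : G =>
        (ENNReal.ofReal (if h : g ∈ Subgroup.center G then p ⟨g, h⟩ else 0) •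
          (if h : g ∈ Subgroup.center G then ν ⟨g, h⟩ else 0)) E)
      have h6 : (Subgroup.center G : Set G).indicator (fun g : G =>
        (ENNReal.ofReal (if h : g ∈ Subgroup.center G then p ⟨g, h⟩ else 0) •
          (if h : g ∈ Subgroup.center G then ν ⟨g, h⟩ else 0)) E) = fun g : G =>
        (ENNReal.ofReal (if h : g ∈ Subgroup.center G then p ⟨g, h⟩ else 0) •
          (if h : g ∈ Subgroup.center G then ν ⟨g, h⟩ else 0)) E := by
        refine Set.indicator_eq_self.2 fun g hg => ?_
        by_contra hcon
        apply hg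
        have hcon' : g ∉ Subgroup.center G := hcon
        simp [hcon']
      rw [h6] at h5
      rw [← h5]
      refine tsum_congr fun z => ?_
      have hz : (z : G) ∈ Subgroup.center G := z.2
      simp only [hz, dif_pos]
    · by_cases hz : z ∈ Subgroup.center G
      · simp only [hz, dif_pos]
        exact ⟨(hp _).1, fun _ => ⟨hz, (hS _).2 (hp _).2.1, (hp _).2.2⟩⟩
      · simp only [hz, dif_neg, not_false_eq_true]
        exact ⟨le_rfl, fun h => absurd rfl h⟩

end

end Pool.Agent.Results.MP_7f377f_mp.DeconfinementTransition
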