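import Mathlib
import Pool.Agent.H586.AF.FinH

/-!
# Lattice Yang-Mills theory in dimension four: asymptotic freedom at one loop

Wilson's lattice gauge theory with the gauge group `G`, an arbitrary closed subgroup of `U(N)`, in the
box `{0, ..., L}^3 × {0, ..., L}` of dimension four. The links in the lateral boundary (the sites one
of whose first three coordinates is `0` or `L`) and in the bottom wall (the fourth coordinate, the
height, is `0`) are frozen to the abelian field of constant curvature `U_2(x) = exp (x_1 θ X)`,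
`U_1 = U_3 = U_4 = 1`, where `X` is any element of the Lie algebra of `G`; all other links, also those
of the top, are free and are integrated with the Haar measure, with the weight
`exp (-β ∑_p Re tr (1 - U_p))`. The response of the free energy to the background field is
`response = (d/dθ)² (- log Z)` at `θ = 0`. Its classical value is `β ‖X‖² L³ (L - 1)`.

**Theorem.** There are `K`, `C` (depending on `G`, on the basis `T` of its Lie algebra and on `X`) such
that for all `L ≥ 2` and all `β ≥ L ^ K` the response is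
`β ‖X‖² L³ (L - 1) - (11 / (24 π²)) κ(X) L⁴ log L` up to `C L⁴`, where `κ(X) = - tr (ad X)²` is the
Killing form; the effective coupling on the scale `L`, the quotient of the response and of its
classical value at `β = 1`, is `β - (11 / (24 π²)) (κ(X) / ‖X‖²) log L` up to `C`. The difference of
the two converges for `L → ∞`, uniformly in `β ≥ L ^ K`, and the limit is
`(c κ(X) - a(X) / 16) / ‖X‖²` with `a(X) = ∑_a ‖X T a + T a X‖²` and an absolute constant `c`, which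
depends neither on the group nor on `X`.

For `G = SU(N)` the effective coupling is
`β - (11 N / (12 π²)) log L + 2 N c - (N² - 2) / (8 N) + o(1)` in every direction `X`; for a central
`X`, in particular for an abelian group, there is no logarithm. So the coupling of the non-abelian
theories decreases at short distances, with the universal coefficient of asymptotic freedom.

In the usual notation `β = 2 / g²` (the action is `β Re tr (1 - U)`):
`1 / g² (L) = 1 / g² - 2 b₀ log L + O(1)` with `b₀ = (11 N / 3) / (16 π²)` for `SU(N)`.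
-/

set_option autoImplicit false

open MeasureTheory Finset Matrix
open scoped Matrix.Norms.Frobenius

namespace Pool.Agent.Results.MP_7f377f_mp.OneLoopRunning

noncomputable section

/-- Complex matrices. -/
abbrev Mt (N : ℕ) := Matrix (Fin N) (Fin N) ℂ

/-- The unitary group `U(N)`. -/
abbrev UU (N : ℕ) := Matrix.unitaryGroup (Fin N) ℂ

/-- The special unitary group `SU(N)`. -/
def SU (N : ℕ) : Subgroup (UU N) where
  carrier := {g | ((g : UU N) : Mt N).det = 1}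
  mul_mem' {a b} ha hb := by
    change ((a : Mt N)).det = 1 at ha
    change ((b : Mt N)).det = 1 at hb
    change (((a * b : UU N)) : Mt N).det = 1
    rw [Submonoid.coe_mul, det_mul, ha, hb, one_mul]
  one_mem' := by simp
  inv_mem' {a} ha := by
    change ((a : Mt N)).det = 1 at ha
    change (((a⁻¹ : UU N)) : Mt N).det = 1
    have h1 : ((a : Mt N) * ((a⁻¹ : UU N) : Mt N)).det = 1 := by
      rw [← Submonoid.coe_mul, mul_inv_cancel, Submonoid.coe_one, det_one]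
    rw [det_mul, ha, one_mul] at h1
    exact h1

variable {N : ℕ} {G : Subgroup (UU N)}

/-- The matrix of an element of `G`. -/
def mt (g : G) : Mt N := ((g : UU N) : Mt N)

/-- The inner product `Re tr (Aᴴ B)`. -/
def inner (A B : Mt N) : ℝ := (trace (Aᴴ * B)).re

/-- The Lie algebra of `G`: the matrices `X` with `exp (t X) ∈ G` for all real `t`. -/
def LieAlg (G : Subgroup (UU N)) : Set (Mt N) :=
  {X | ∀ t : ℝ, ∃ g : G, mt g = NormedSpace.exp (t • X)}

/-- `T` is an orthonormal basis of the Lie algebra of `G`. -/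
structure IsBasis (G : Subgroup (UU N)) {n : ℕ} (T : Fin n → Mt N) : Prop where
  mem : ∀ a, T a ∈ LieAlg G
  orth : ∀ a b, inner (T a) (T b) = if a = b then 1 else 0
  span : ∀ X ∈ LieAlg G, X = ∑ a, inner (T a) X • T a

/-- `κ(X) = ∑_a ‖[X, T a]‖² = - tr (ad X)²`, the Killing form. -/
def killing {n : ℕ} (X : Mt N) (T : Fin n → Mt N) : ℝ :=
  ∑ a, inner (X * T a - T a * X) (X * T a - T a * X)

/-- `∑_a ‖X T a + T a X‖²`, the same with anticommutators. -/
def anti {n : ℕ} (X : Mt N) (T : Fin n → Mt N) : ℝ :=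
  ∑ a, inner (X * T a + T a * X) (X * T a + T a * X)

/-- The energy `Re tr (1 - a b c⁻¹ d⁻¹)` of a plaquette. -/
def plaquette (a b c d : Mt N) : ℝ := (trace (1 - a * b * cᴴ * dᴴ)).re

/-- The background field `exp (x θ X)`. -/
def background (X : Mt N) (θ x : ℝ) : Mt N := NormedSpace.exp ((θ * x) • X)

/-- The free links of the direction 1: from `(x, y, z, h)` to `(x + 1, y, z, h)`, `x < L`, with
`1 ≤ y, z ≤ L - 1`, `1 ≤ h ≤ L`; the index is `(x, y - 1, z - 1, h - 1)`. -/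
abbrev Free1 (L : ℕ) := Fin L × Fin (L - 1) × Fin (L - 1) × Fin L
/-- The free links of the direction 2, `y < L`, `1 ≤ x, z ≤ L - 1`, `1 ≤ h ≤ L`. -/
abbrev Free2 (L : ℕ) := Fin (L - 1) × Fin L × Fin (L - 1) × Fin L
/-- The free links of the direction 3, `z < L`, `1 ≤ x, y ≤ L - 1`, `1 ≤ h ≤ L`. -/
abbrev Free3 (L : ℕ) := Fin (L - 1) × Fin (L - 1) × Fin L × Fin L
/-- The free vertical links, from the height `h` to `h + 1`, `h < L`, `1 ≤ x, y, z ≤ L - 1`. -/
abbrev Free4 (L : ℕ) := Fin (L - 1) × Fin (L - 1) × Fin (L - 1) × Fin L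

section ext
variable {R : Type}

/-- The field on all links of the direction 1: `u` on the free links, `w` on the frozen ones. -/
def ext1 (L : ℕ) (u : Free1 L → R) (w : R) (x y z h : ℕ) : R :=
  if c : (x < L ∧ y - 1 < L - 1 ∧ z - 1 < L - 1 ∧ h - 1 < L) ∧ 1 ≤ y ∧ 1 ≤ z ∧ 1 ≤ h then
    u (⟨x, c.1.1⟩, ⟨y - 1, c.1.2.1⟩, ⟨z - 1, c.1.2.2.1⟩, ⟨h - 1, c.1.2.2.2⟩) else w
/-- The field on all links of the direction 2. -/
def ext2 (L : ℕ) (u : Free2 L → R) (w : R) (x y z h : ℕ) : R :=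
  if c : (x - 1 < L - 1 ∧ y < L ∧ z - 1 < L - 1 ∧ h - 1 < L) ∧ 1 ≤ x ∧ 1 ≤ z ∧ 1 ≤ h then
    u (⟨x - 1, c.1.1⟩, ⟨y, c.1.2.1⟩, ⟨z - 1, c.1.2.2.1⟩, ⟨h - 1, c.1.2.2.2⟩) else w
/-- The field on all links of the direction 3. -/
def ext3 (L : ℕ) (u : Free3 L → R) (w : R) (x y z h : ℕ) : R :=
  if c : (x - 1 < L - 1 ∧ y - 1 < L - 1 ∧ z < L ∧ h - 1 < L) ∧ 1 ≤ x ∧ 1 ≤ y ∧ 1 ≤ h then
    u (⟨x - 1, c.1.1⟩, ⟨y - 1, c.1.2.1⟩, ⟨z, c.1.2.2.1⟩, ⟨h - 1, c.1.2.2.2⟩) else w
/-- The field on all vertical links. -/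
def ext4 (L : ℕ) (u : Free4 L → R) (w : R) (x y z h : ℕ) : R :=
  if c : (x - 1 < L - 1 ∧ y - 1 < L - 1 ∧ z - 1 < L - 1 ∧ h < L) ∧ 1 ≤ x ∧ 1 ≤ y ∧ 1 ≤ z then
    u (⟨x - 1, c.1.1⟩, ⟨y - 1, c.1.2.1⟩, ⟨z - 1, c.1.2.2.1⟩, ⟨h, c.1.2.2.2⟩) else w

end ext

/-- The sum over the plaquettes of the plane 12 with at least one free link. -/
def sum12 (L : ℕ) (F : ℕ → ℕ → ℕ → ℕ → ℝ) : ℝ :=
  ∑ x ∈ range L, ∑ y ∈ range L, ∑ z ∈ Ico 1 L, ∑ h ∈ Icc 1 L, F x y z h
/-- The plane 13. -/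
def sum13 (L : ℕ) (F : ℕ → ℕ → ℕ → ℕ → ℝ) : ℝ :=
  ∑ x ∈ range L, ∑ y ∈ Ico 1 L, ∑ z ∈ range L, ∑ h ∈ Icc 1 L, F x y z h
/-- The plane 23. -/
def sum23 (L : ℕ) (F : ℕ → ℕ → ℕ → ℕ → ℝ) : ℝ :=
  ∑ x ∈ Ico 1 L, ∑ y ∈ range L, ∑ z ∈ range L, ∑ h ∈ Icc 1 L, F x y z h
/-- The plane 14. -/
def sum14 (L : ℕ) (F : ℕ → ℕ → ℕ → ℕ → ℝ) : ℝ :=
  ∑ x ∈ range L, ∑ y ∈ Ico 1 L, ∑ z ∈ Ico 1 L, ∑ h ∈ range L, F x y z h
/-- The plane 24. -/
def sum24 (L : ℕ) (F : ℕ → ℕ → ℕ → ℕ → ℝ) : ℝ :=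
  ∑ x ∈ Ico 1 L, ∑ y ∈ range L, ∑ z ∈ Ico 1 L, ∑ h ∈ range L, F x y z h
/-- The plane 34. -/
def sum34 (L : ℕ) (F : ℕ → ℕ → ℕ → ℕ → ℝ) : ℝ :=
  ∑ x ∈ Ico 1 L, ∑ y ∈ Ico 1 L, ∑ z ∈ range L, ∑ h ∈ range L, F x y z h

/-- The sum of `Re tr (1 - U_p)` over the plaquettes `p`. -/
def wilson (L : ℕ) (U1 U2 U3 U4 : ℕ → ℕ → ℕ → ℕ → Mt N) : ℝ :=
  sum12 L (fun x y z h => plaquette (U1 x y z h) (U2 (x + 1) y z h) (U1 x (y + 1) z h) (U2 x y z h)) +
  sum13 L (fun x y z h => plaquette (U1 x y z h) (U3 (x + 1) y z h) (U1 x y (z + 1) h) (U3 x y z h)) +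
  sum23 L (fun x y z h => plaquette (U2 x y z h) (U3 x (y + 1) z h) (U2 x y (z + 1) h) (U3 x y z h)) +
  sum14 L (fun x y z h => plaquette (U1 x y z h) (U4 (x + 1) y z h) (U1 x y z (h + 1)) (U4 x y z h)) +
  sum24 L (fun x y z h => plaquette (U2 x y z h) (U4 x (y + 1) z h) (U2 x y z (h + 1)) (U4 x y z h)) +
  sum34 L (fun x y z h => plaquette (U3 x y z h) (U4 x y (z + 1) h) (U3 x y z (h + 1)) (U4 x y z h))

/-- The action of the free horizontal links `u` and the free vertical links `v`; the frozen links have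
the value `exp (x θ X)` in the direction 2 (`x` the first coordinate) and `1` in the other directions. -/
def action (X : Mt N) (L : ℕ) (θ : ℝ) (u : Free1 L ⊕ Free2 L ⊕ Free3 L → G) (v : Free4 L → G) : ℝ :=
  wilson L (ext1 L (fun i => mt (u (Sum.inl i))) 1)
    (fun x => ext2 L (fun i => mt (u (Sum.inr (Sum.inl i)))) (background X θ x) x)
    (ext3 L (fun i => mt (u (Sum.inr (Sum.inr i)))) 1) (ext4 L (fun i => mt (v i)) 1)

/-- The partition function with the background field `θ X` on the boundary; `μ` is the Haar measure. -/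
def partition [MeasurableSpace G] (μ : Measure G) (X : Mt N) (L : ℕ) (β θ : ℝ) : ℝ :=
  ∫ u : Free1 L ⊕ Free2 L ⊕ Free3 L → G, ∫ v : Free4 L → G, Real.exp (-(β * action X L θ u v))
    ∂(Measure.pi fun _ => μ) ∂(Measure.pi fun _ => μ)

/-- The free energy as a function of the background field `θ`. -/
def freeEnergy [MeasurableSpace G] (μ : Measure G) (X : Mt N) (L : ℕ) (β θ : ℝ) : ℝ :=
  -Real.log (partition μ X L β θ)

/-- The response of the free energy to the background field. -/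
def response [MeasurableSpace G] (μ : Measure G) (X : Mt N) (L : ℕ) (β : ℝ) : ℝ :=
  deriv (deriv fun θ => freeEnergy μ X L β θ) 0

/-- The effective coupling on the scale `L`: the response divided by the classical response at
`β = 1`. -/
def effectiveCoupling [MeasurableSpace G] (μ : Measure G) (X : Mt N) (L : ℕ) (β : ℝ) : ℝ :=
  response μ X L β / (inner X X * (L : ℝ) ^ 3 * (L - 1))

/-- Asymptotic freedom at one loop for lattice Yang-Mills theory: for an arbitrary closed subgroup of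
`U(N)` as the gauge group, with the limit of the finite part, and for `SU(N)`. -/
theorem result :
    (∀ {N : ℕ} {G : Subgroup (UU N)} [MeasurableSpace G] [BorelSpace G],
      IsClosed (G : Set (UU N)) →
      (∃ (n : ℕ) (T : Fin n → Mt N), IsBasis G T) ∧
      ∀ {n : ℕ} (T : Fin n → Mt N), IsBasis G T → ∀ X ∈ LieAlg G,
      ∃ (K : ℕ) (C : ℝ), ∀ (μ : Measure G) [IsProbabilityMeasure μ] [μ.IsHaarMeasure]
        (L : ℕ), 2 ≤ L →
        (∀ β : ℝ, (∀ θ, 0 < partition μ X L β θ) ∧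
          (Differentiable ℝ fun θ => freeEnergy μ X L β θ) ∧
          Differentiable ℝ (deriv fun θ => freeEnergy μ X L β θ)) ∧
        ∀ β : ℝ, (L : ℝ) ^ K ≤ β →
        |response μ X L β - (inner X X * (L : ℝ) ^ 3 * (L - 1) * β -
          11 / (24 * Real.pi ^ 2) * killing X T * ((L : ℝ) ^ 4 * Real.log L))| ≤ C * (L : ℝ) ^ 4 ∧
        (X ≠ 0 → |effectiveCoupling μ X L β -
          (β - 11 / (24 * Real.pi ^ 2) * (killing X T / inner X X) * Real.log L)| ≤ C)) ∧
    ∃ c : ℝ,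
      (∀ {N : ℕ} {G : Subgroup (UU N)} [MeasurableSpace G] [BorelSpace G],
        IsClosed (G : Set (UU N)) → ∀ {n : ℕ} (T : Fin n → Mt N), IsBasis G T →
        ∀ X ∈ LieAlg G, X ≠ 0 → ∃ K : ℕ, ∀ ε : ℝ, 0 < ε → ∃ L₀ : ℕ,
        ∀ (μ : Measure G) [IsProbabilityMeasure μ] [μ.IsHaarMeasure] (L : ℕ), 2 ≤ L → L₀ ≤ L →
        ∀ β : ℝ, (L : ℝ) ^ K ≤ β →
        |effectiveCoupling μ X L β -
          (β - 11 / (24 * Real.pi ^ 2) * (killing X T / inner X X) * Real.log L) -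
          (c * killing X T - (1 / 16) * anti X T) / inner X X| ≤ ε) ∧
      ∀ N : ℕ, 1 ≤ N → ∀ [MeasurableSpace (SU N)] [BorelSpace (SU N)],
        ∀ X ∈ LieAlg (SU N), X ≠ 0 → ∃ K : ℕ, ∀ ε : ℝ, 0 < ε → ∃ L₀ : ℕ,
        ∀ (μ : Measure (SU N)) [IsProbabilityMeasure μ] [μ.IsHaarMeasure] (L : ℕ), 2 ≤ L → L₀ ≤ L →
        ∀ β : ℝ, (L : ℝ) ^ K ≤ β →
        |effectiveCoupling μ X L β -
          (β - 11 * N / (12 * Real.pi ^ 2) * Real.log L + 2 * N * c - ((N : ℝ) ^ 2 - 2) / (8 * N))| ≤ ε := by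
  refine ⟨fun {N G} _ _ hG => ⟨?_, fun T hT X hX => ?_⟩, ?_⟩
  · obtain ⟨n, T, hT⟩ := (Pool.Agent.H586.AF.GG.aLIE G hG).1
    exact ⟨n, T, ⟨hT.mem, hT.orth, hT.span⟩⟩
  · exact Pool.Agent.H586.AF.GG.finG Pool.Agent.H586.AF.GG.final Pool.Agent.H586.AF.GG.aGF
      Pool.Agent.H586.AF.GG.aE3 hG T ⟨hT.mem, hT.orth, hT.span⟩ X hX
  · obtain ⟨c, hc⟩ := Pool.Agent.H586.AF.EE.finalH
    have key : ∀ {N : ℕ} {G : Subgroup (UU N)} [MeasurableSpace G] [BorelSpace G],
        IsClosed (G : Set (UU N)) → ∀ {n : ℕ} (T : Fin n → Mt N), IsBasis G T →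
        ∀ X ∈ LieAlg G, X ≠ 0 → ∃ K : ℕ, ∀ ε : ℝ, 0 < ε → ∃ L₀ : ℕ,
        ∀ (μ : Measure G) [IsProbabilityMeasure μ] [μ.IsHaarMeasure] (L : ℕ), 2 ≤ L → L₀ ≤ L →
        ∀ β : ℝ, (L : ℝ) ^ K ≤ β →
        |effectiveCoupling μ X L β -
          (β - 11 / (24 * Real.pi ^ 2) * (killing X T / inner X X) * Real.log L) -
          (c * killing X T - (1 / 16) * anti X T) / inner X X| ≤ ε := by
      intro N G _ _ hG n T hT X hX hX0
      exact hc hG T ⟨hT.mem, hT.orth, hT.span⟩ X hX hX0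
    refine ⟨c, key, ?_⟩
    intro N hN _ _ X hX hX0
    have hS := Pool.Agent.H586.AF.GG.aSUN N hN
    have hcl : IsClosed (SU N : Set (UU N)) := hS.1
    obtain ⟨n, T, hT⟩ := (Pool.Agent.H586.AF.GG.aLIE (SU N) hcl).1
    have hT' : IsBasis (SU N) T := ⟨hT.mem, hT.orth, hT.span⟩
    obtain ⟨K, hK⟩ := key hcl T hT' X hX hX0
    refine ⟨K, fun ε hε => ?_⟩
    obtain ⟨L₀, hL₀⟩ := hK ε hε
    refine ⟨L₀, fun μ _ _ L hL hLL β hβ => ?_⟩
    have h1 := hL₀ μ L hL hLL β hβ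
    have h2 : killing X T = 2 * N * inner X X := hS.2 T hT X hX
    have h2' : anti X T = 2 * (N - 2 / N) * inner X X :=
      Pool.Agent.H586.AF.EE.aSUA N hN T hT X hX
    have h3 : inner X X ≠ 0 := (Pool.Agent.H586.AF.GG.ip_self_pos X hX0).ne'
    have hN0 : (N : ℝ) ≠ 0 := by
      have : 0 < N := hN
      positivity
    have h4 : 11 / (24 * Real.pi ^ 2) * (killing X T / inner X X) = 11 * N / (12 * Real.pi ^ 2) := by
      rw [h2, mul_div_assoc, div_self h3]
      field_simp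
      ring
    have h5 : (c * killing X T - (1 / 16) * anti X T) / inner X X =
        2 * N * c - ((N : ℝ) ^ 2 - 2) / (8 * N) := by
      rw [h2, h2']
      field_simp
      ring
    rw [h4, h5] at h1
    have h6 : effectiveCoupling μ X L β - (β - 11 * N / (12 * Real.pi ^ 2) * Real.log L) -
        (2 * N * c - ((N : ℝ) ^ 2 - 2) / (8 * N)) = effectiveCoupling μ X L β -
          (β - 11 * N / (12 * Real.pi ^ 2) * Real.log L + 2 * N * c -
            ((N : ℝ) ^ 2 - 2) / (8 * N)) := by ring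
    rw [h6] at h1
    exact h1

end

end Pool.Agent.Results.MP_7f377f_mp.OneLoopRunning
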