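import Pool.Agent.H586.SLB.Fin
import Pool.Agent.H586.GLU.Vtx
import Pool.Agent.H662.GLU.Nz

/-!
# Lattice Yang-Mills theory in a slab: mass gap uniformly in the lattice spacing, continuum limit

Wilson's lattice gauge theory with an arbitrary closed subgroup `G` of `U(N)` (infinite; for example
`SU(N)`, `N ≥ 2`) in the slab `ℤ^D × {0, ..., L}`, `D ≥ 2`, of the lattice `ℤ^(D+1)`; the link
variables in the wall `ℤ^D × {0}` are `1` (Dirichlet), those at the height `L` are free. For `D = 3`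
this is the four dimensional theory, infinite in time and in two directions of space. The lattice
spacing is `1 / L`, so that in the continuum limit `L → ∞` the slab has the thickness one. The
couplings are `β ≥ K L ^ K`.

1. There is exactly one Gibbs measure, finite volume expectations converge to it, it is reflection
positive and invariant, and the gap of the transfer matrix in every horizontal direction is
`(1 + O(ε)) mass L` (upper and lower bounds, also for gauge invariant observables only), uniformly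
in `L`; `L * mass L → π / 2`: the mass gap in physical units tends to `π / 2`.

2. The gauge field (in the axial gauge relative to the wall, where it is a gauge invariant function of
the link variables) converges in law to a Gaussian field (the free Maxwell field with values in
the Lie algebra of `G`).

3. Osterwalder-Schrader reconstruction of this continuum theory: a Hilbert space, a vacuum and a
strongly continuous semigroup `exp (-t H)`, `H ≥ 0`, and the mass gap is exactly `π / 2`.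

4. The first correction, of the order `β ^ (-1 / 2)`: the amputated three point function converges to the
three-gluon vertex of the Yang-Mills action.
-/

set_option autoImplicit false
set_option linter.unusedSectionVars false

open MeasureTheory Matrix Filter Topology Set
open scoped InnerProductSpace

namespace Pool.Agent.Results.MP_7f377f_mp.SlabContinuumLimit

noncomputable section

/-! ### The lattice theory -/

/-- Links of the slab `ℤ^D × {0, ..., L}` which are not in the wall: `(x, some i, s)` is the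
horizontal link from `(x, s + 1)` to `(x + e i, s + 1)`, and `(x, none, s)` is the vertical link
from `(x, s)` to `(x, s + 1)`. -/
abbrev Link (D L : ℕ) := (Fin D → ℤ) × Option (Fin D) × Fin L

/-- Unit vectors. -/
def e {D : ℕ} (i : Fin D) : Fin D → ℤ := Pi.single i 1

variable {N : ℕ} {G : Subgroup (unitaryGroup (Fin N) ℂ)} {D L : ℕ}

/-- The matrix of an element of `G`. -/
def mat (g : G) : Matrix (Fin N) (Fin N) ℂ := ((g : unitaryGroup (Fin N) ℂ) : Matrix (Fin N) (Fin N) ℂ)

/-- Wilson's plaquette energy `Re tr (1 - p)`. -/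
def act (p : G) : ℝ := (trace (1 - mat p)).re

/-- The link variable of the horizontal link in the direction `i` at `x` at the height `s`; it is
`1` in the wall `s = 0`. -/
def low (U : Link D L → G) (x : Fin D → ℤ) (i : Fin D) (s : Fin L) : G :=
  if (s : ℕ) = 0 then 1 else U (x, some i, ⟨(s : ℕ) - 1, by omega⟩)

/-- The product of the link variables around the vertical plaquette based at `(x, s)`. -/
def plaqV (U : Link D L → G) (x : Fin D → ℤ) (i : Fin D) (s : Fin L) : G :=
  low U x i s * U (x + e i, none, s) * (U (x, some i, s))⁻¹ * (U (x, none, s))⁻¹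

/-- The product of the link variables around the horizontal plaquette based at `(x, s + 1)`. -/
def plaqH (U : Link D L → G) (x : Fin D → ℤ) (i j : Fin D) (s : Fin L) : G :=
  U (x, some i, s) * U (x + e i, some j, s) * (U (x + e j, some i, s))⁻¹ * (U (x, some j, s))⁻¹

/-- The energy of the plaquettes based in the column of `x`. -/
def dens (U : Link D L → G) (x : Fin D → ℤ) : ℝ :=
  ∑ s : Fin L, ∑ i : Fin D, (act (plaqV U x i s) +
    ∑ j : Fin D, if i < j then act (plaqH U x i j s) else 0)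

/-- The columns with a plaquette which contains a link of `M`. -/
def base (M : Finset (Link D L)) : Finset (Fin D → ℤ) :=
  M.image (fun l => l.1) ∪ Finset.univ.biUnion fun i : Fin D => M.image fun l => l.1 - e i

/-- The configuration which is `y` on the links in `M` and `U` on the other links. -/
def patch (M : Finset (Link D L)) (y : M → G) (U : Link D L → G) : Link D L → G := fun l =>
  if h : l ∈ M then y ⟨l, h⟩ else U l

variable [MeasurableSpace G]

/-- The expectation of `F` in the finite set `M` of links with the boundary condition `U`: the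
density is proportional to `exp (-β ∑ Re tr (1 - U_p))` for the product of the Haar measures `μ`. -/
def expect (μ : Measure G) (β : ℝ) (M : Finset (Link D L)) (U : Link D L → G)
    (F : (Link D L → G) → ℝ) : ℝ :=
  (∫ y : M → G, F (patch M y U) * Real.exp (-(β * ∑ x ∈ base M, dens (patch M y U) x))
    ∂(Measure.pi fun _ => μ)) /
    ∫ y : M → G, Real.exp (-(β * ∑ x ∈ base M, dens (patch M y U) x)) ∂(Measure.pi fun _ => μ)

/-- The infinite volume states of the lattice theory at the coupling `β` (DLR equations). -/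
structure IsYM (μ : Measure G) (β : ℝ) (P : Measure (Link D L → G)) : Prop where
  prob : IsProbabilityMeasure P
  dlr : ∀ (M : Finset (Link D L)) (F : (Link D L → G) → ℝ), Measurable F →
    (∃ c, ∀ U, |F U| ≤ c) → ∫ U, F U ∂P = ∫ U, expect μ β M U F ∂P

/-- `F` depends only on the links of the columns in `A`. -/
def Loc (A : Finset (Fin D → ℤ)) (F : (Link D L → G) → ℝ) : Prop :=
  ∀ U U' : Link D L → G, (∀ l : Link D L, l.1 ∈ A → U l = U' l) → F U = F U'

/-- The sup distance of the columns. -/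
def dist' (x y : Fin D → ℤ) : ℕ := Finset.univ.sup fun i => (x i - y i).natAbs

/-- Exponential clustering with the rate `m`: convergence of the finite volume expectations with
arbitrary boundary conditions `U`, and decay of correlations, for bounded local observables. -/
def Clusters (μ : Measure G) (β : ℝ) (P : Measure (Link D L → G)) (m : ℝ) : Prop :=
  ∃ C : ℝ,
    (∀ (V A : Finset (Fin D → ℤ)) (r : ℕ), (∀ a ∈ A, ∀ y ∉ V, r ≤ dist' a y) →
      ∀ F : (Link D L → G) → ℝ, Measurable F → (∀ U, |F U| ≤ 1) → Loc A F →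
      ∀ U : Link D L → G, |expect μ β (V ×ˢ Finset.univ) U F - ∫ U, F U ∂P| ≤
        C * A.card * Real.exp (-(m * r))) ∧
    ∀ (A B : Finset (Fin D → ℤ)) (r : ℕ), (∀ a ∈ A, ∀ y ∈ B, r ≤ dist' a y) →
      ∀ F F' : (Link D L → G) → ℝ, Measurable F → Measurable F' → (∀ U, |F U| ≤ 1) →
      (∀ U, |F' U| ≤ 1) → Loc A F → Loc B F' →
      |∫ U, F' U * F U ∂P - (∫ U, F' U ∂P) * ∫ U, F U ∂P| ≤
        C * A.card * Real.exp (-(m * r))

/-! ### The transfer matrix of the lattice theory -/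

/-- The reflection of the coordinate `i`. -/
def th (i : Fin D) (x : Fin D → ℤ) : Fin D → ℤ := Function.update x i (-x i)

/-- The reflected field: the links in the direction `i` are inverted. -/
def refl (i : Fin D) (U : Link D L → G) : Link D L → G := fun l =>
  if l.2.1 = some i then (U (th i l.1 - e i, l.2))⁻¹ else U (th i l.1, l.2)

/-- The translated field. -/
def shift (v : Fin D → ℤ) (U : Link D L → G) : Link D L → G := fun l => U (l.1 + v, l.2)

/-- `F` is a bounded measurable local observable of the half space `0 ≤ x i`. -/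
structure Half (i : Fin D) (F : (Link D L → G) → ℝ) : Prop where
  meas : Measurable F
  bdd : ∃ c, ∀ U, |F U| ≤ c
  loc : ∃ A : Finset (Fin D → ℤ), (∀ x ∈ A, 0 ≤ x i) ∧ Loc A F

/-- Gauge transformations `g`, with `g = 1` in the wall. -/
def gauge (g : (Fin D → ℤ) → ℕ → G) (U : Link D L → G) : Link D L → G := fun l =>
  match l with
  | (x, none, s) => g x s * U (x, none, s) * (g x (s + 1))⁻¹
  | (x, some i, s) => g x (s + 1) * U (x, some i, s) * (g (x + e i) (s + 1))⁻¹

/-- `F` is gauge invariant. -/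
def Inv (F : (Link D L → G) → ℝ) : Prop :=
  ∀ g : (Fin D → ℤ) → ℕ → G, (∀ x, g x 0 = 1) → ∀ U, F (gauge g U) = F U

/-- The truncated correlation of the reflection of `F` and the translate of `F` by `n` steps in the
direction `i`: the matrix element `⟨F, T ^ n F⟩ - |⟨F⟩|²` of the transfer matrix. -/
def corr (i : Fin D) (P : Measure (Link D L → G)) (F : (Link D L → G) → ℝ) (n : ℕ) : ℝ :=
  ∫ U, F (refl i U) * F (shift (n • e i) U) ∂P - (∫ U, F U ∂P) ^ 2

/-- `m` is a mass gap of the lattice theory: `|⟨F, T ^ n F⟩ - |⟨F⟩|²| ≤ exp (-m n) (⟨F, F⟩ - |⟨F⟩|²)` for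
all observables `F` of the half space. -/
def Gap (i : Fin D) (P : Measure (Link D L → G)) (m : ℝ) : Prop :=
  ∀ F : (Link D L → G) → ℝ, Half i F → ∀ n : ℕ,
    |corr i P F n| ≤ Real.exp (-(m * n)) * corr i P F 0

/-- `m` is a mass gap of the lattice theory on the gauge invariant observables. -/
def GapInv (i : Fin D) (P : Measure (Link D L → G)) (m : ℝ) : Prop :=
  ∀ F : (Link D L → G) → ℝ, Half i F → Inv F → ∀ n : ℕ,
    |corr i P F n| ≤ Real.exp (-(m * n)) * corr i P F 0

/-- The mass of the lattice theory, in the direction `i`. -/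
def latMass (i : Fin D) (P : Measure (Link D L → G)) : ℝ := sSup {m : ℝ | Gap i P m}

/-- The mass of the lattice theory on the gauge invariant observables. -/
def latMassInv (i : Fin D) (P : Measure (Link D L → G)) : ℝ := sSup {m : ℝ | GapInv i P m}

/-- The mass of the free field on the lattice slab: `2 cosh m - 2 = 2 - 2 cos (π / (2 L + 1))`. -/
def mass (L : ℕ) : ℝ := Real.arcosh (2 - Real.cos (Real.pi / (2 * L + 1)))

/-! ### The continuum limit -/

/-- Points: horizontal coordinates and height. -/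
abbrev Pt (D : ℕ) := (Fin D → ℝ) × ℝ

/-- The product of the vertical link variables of the column `x` from the wall to the height `s`. -/
def hv (U : Link D L → G) (x : Fin D → ℤ) : ℕ → G
  | 0 => 1
  | s + 1 => hv U x s * if h : s < L then U (x, none, ⟨s, h⟩) else 1

/-- The horizontal link variable in the axial gauge: the holonomy along the path which goes up from
the wall, along the link, and back down to the wall. It is invariant under all gauge
transformations which are `1` in the wall. -/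
def axial (U : Link D L → G) (x : Fin D → ℤ) (a : Fin D × Fin L) : G :=
  hv U x (a.2 + 1) * U (x, some a.1, a.2) * (hv U (x + e a.1) (a.2 + 1))⁻¹

/-- The component of the lattice field `axial - 1` in the direction of the matrix `X`. -/
def comp (X : Matrix (Fin N) (Fin N) ℂ) (U : Link D L → G) (x : Fin D → ℤ) (a : Fin D × Fin L) : ℝ :=
  (trace (Xᴴ * (mat (axial U x a) - 1))).re

/-- The component `X` of the renormalised field, smeared with the test one-form `f`: the sum over
the links (the lattice spacing is `1 / L`). -/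
def smear (β : ℝ) (X : Matrix (Fin N) (Fin N) ℂ) (f : Pt D → Fin D → ℝ) (U : Link D L → G) : ℝ :=
  Real.sqrt β * ∑ᶠ x : Fin D → ℤ, ∑ a : Fin D × Fin L,
    (L : ℝ) ^ (-(((D : ℝ) + 3) / 2)) *
      f (fun j => (x j : ℝ) / L, (((a.2 : ℕ) : ℝ) + 1) / L) a.1 * comp X U x a

/-- `X` is in the Lie algebra of `G`. -/
def InLie (G : Subgroup (unitaryGroup (Fin N) ℂ)) (X : Matrix (Fin N) (Fin N) ℂ) : Prop :=
  ∀ t : ℝ, ∃ g : G, mat g = NormedSpace.exp (t • X)

/-- Orthonormal matrices for `Re tr (Xᴴ Y)`. -/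
def Ortho {n : ℕ} (X : Fin n → Matrix (Fin N) (Fin N) ℂ) : Prop :=
  ∀ i j, (trace ((X i)ᴴ * X j)).re = if i = j then 1 else 0

/-- The derivative of the component `i` of `u` in the direction `v`. -/
def pd (u : Pt D → Fin D → ℝ) (v : Pt D) (i : Fin D) (p : Pt D) : ℝ := fderiv ℝ u p v i

/-- The energy density `∑ (∂_z u_i)² + ∑_{i<j} (∂_i u_j - ∂_j u_i)²` of the connection
`∑ u_i dx_i` in the axial gauge: the square of its curvature. -/
def eDens (u : Pt D → Fin D → ℝ) (p : Pt D) : ℝ :=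
  ∑ i, pd u (0, 1) i p ^ 2 + ∑ i, ∑ j,
    if i < j then (pd u (Pi.single i 1, 0) j p - pd u (Pi.single j 1, 0) i p) ^ 2 else 0

/-- The energy in the slab `ℝ^D × [0, 1]`. -/
def energy (u : Pt D → Fin D → ℝ) : ℝ := ∫ p in {p : Pt D | 0 ≤ p.2 ∧ p.2 ≤ 1}, eDens u p

/-- Smooth fields with compact support which vanish at the wall. -/
structure IsTest (u : Pt D → Fin D → ℝ) : Prop where
  smooth : ContDiff ℝ 1 u
  supp : HasCompactSupport u
  wall : ∀ y, u (y, 0) = 0

/-- The variance of the free Maxwell field smeared with `f`: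
`sup_u (2 ∫ f u - energy u) = ⟨f, (curl* curl)⁻¹ f⟩`. -/
def var (f : Pt D → Fin D → ℝ) : ℝ :=
  sSup {t | ∃ u, IsTest u ∧
    t = 2 * (∫ p in {p : Pt D | 0 ≤ p.2 ∧ p.2 ≤ 1}, ∑ i, f p i * u p i) - energy u}

/-- `n` test one-forms, one for each component of the field. -/
abbrev TF (n D : ℕ) : Type := Fin n → Pt D → Fin D → ℝ

/-- The characteristic functional of the continuum theory: `n` independent free Maxwell fields. -/
def charS {n : ℕ} (f : TF n D) : ℂ := (Real.exp (-(∑ j, var (f j)) / 2) : ℝ)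

/-- The image of a one-form under the motion `x ↦ A x + v` of the horizontal coordinates. -/
def motion (A : Matrix (Fin D) (Fin D) ℝ) (v : Fin D → ℝ) (f : Pt D → Fin D → ℝ) :
    Pt D → Fin D → ℝ := fun p i => ∑ j, A j i * f (A *ᵥ p.1 + v, p.2) j

/-! ### The first correction -/

/-- The test one-form `φ` on the lattice. -/
def test (L : ℕ) (φ : Pt D → Fin D → ℝ) (x : Fin D → ℤ) (a : Fin D × Fin L) : ℝ :=
  (L : ℝ) ^ ((1 - (D : ℝ)) / 2) * φ (fun j => (x j : ℝ) / L, (((a.2 : ℕ) : ℝ) + 1) / L) a.1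

/-- The value one layer below (zero in the wall). -/
def below (u : Fin D × Fin L → ℝ) (a : Fin D × Fin L) : ℝ :=
  if h : (a.2 : ℕ) = 0 then 0 else u (a.1, ⟨(a.2 : ℕ) - 1, by omega⟩)

/-- The curl of a lattice one-form at a horizontal plaquette. -/
def curlL (u : (Fin D → ℤ) → Fin D × Fin L → ℝ) (x : Fin D → ℤ) (p : (Fin D × Fin D) × Fin L) : ℝ :=
  u x (p.1.1, p.2) + u (x + e p.1.1) (p.1.2, p.2) - u x (p.1.2, p.2) - u (x + e p.1.2) (p.1.1, p.2)

/-- The pairing of the curls of two lattice one-forms (in the axial gauge) in the column `x`. -/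
def curl2 (u v : (Fin D → ℤ) → Fin D × Fin L → ℝ) (x : Fin D → ℤ) : ℝ :=
  ∑ a, (u x a - below (u x) a) * (v x a - below (v x) a) +
    ∑ p ∈ Finset.univ.filter (fun p : (Fin D × Fin D) × Fin L => p.1.1 < p.1.2),
      curlL u x p * curlL v x p

/-- The component `X` of the renormalised field, amputated, smeared with the one-form `φ`: the
pairing of the curl of `φ` and the curl of the field. -/
def amp (β : ℝ) (X : Matrix (Fin N) (Fin N) ℂ) (φ : Pt D → Fin D → ℝ) (U : Link D L → G) : ℝ :=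
  Real.sqrt β * ∑ᶠ x : Fin D → ℤ, curl2 (test L φ) (comp X U) x

/-- The horizontal component `i j` of the curl of `u`. -/
def curl (u : Pt D → Fin D → ℝ) (i j : Fin D) (p : Pt D) : ℝ :=
  pd u (Pi.single i 1, 0) j p - pd u (Pi.single j 1, 0) i p

/-- The component `i j` of the wedge product. -/
def wedge (u v : Pt D → Fin D → ℝ) (i j : Fin D) (p : Pt D) : ℝ := u p i * v p j - u p j * v p i

/-- The Maxwell energy form in the slab: the pairing of the curls. -/
def form (u v : Pt D → Fin D → ℝ) : ℝ := ∫ p in {p : Pt D | 0 ≤ p.2 ∧ p.2 ≤ 1},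
  ((∑ i, pd u (0, 1) i p * pd v (0, 1) i p) +
    ∑ i, ∑ j, if i < j then curl u i j p * curl v i j p else 0)

/-- The three-gluon vertex: `∫ ⟨curl φ0, φ1 ∧ φ2⟩ + ⟨curl φ1, φ2 ∧ φ0⟩ + ⟨curl φ2, φ0 ∧ φ1⟩`. -/
def vertex (φ : TF 3 D) : ℝ := ∫ p in {p : Pt D | 0 ≤ p.2 ∧ p.2 ≤ 1}, ∑ i, ∑ j, if i < j then
  curl (φ 0) i j p * wedge (φ 1) (φ 2) i j p + curl (φ 1) i j p * wedge (φ 2) (φ 0) i j p +
  curl (φ 2) i j p * wedge (φ 0) (φ 1) i j p else 0

/-! ### Osterwalder-Schrader reconstruction -/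

/-- The test functions are continuous with compact support and vanish for `x i < 0`. -/
structure HalfT {n : ℕ} (i : Fin D) (f : TF n D) : Prop where
  cont : ∀ j, Continuous (f j)
  supp : ∀ j, HasCompactSupport (f j)
  half : ∀ j p, p.1 i < 0 → f j p = 0

/-- The reflection of the test one-forms in the direction `i`. -/
def reflT {n : ℕ} (i : Fin D) (f : TF n D) : TF n D := fun j p k =>
  (if k = i then -1 else 1) * f j (Function.update p.1 i (-p.1 i), p.2) k

/-- The translation of the test functions by `t` in the direction `i`. -/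
def shiftT {n : ℕ} (i : Fin D) (t : ℝ) (f : TF n D) : TF n D :=
  fun j p => f j (p.1 - Pi.single i t, p.2)

/-- The Osterwalder-Schrader reconstruction of the theory with the characteristic functional `S`,
with the Euclidean time in the direction `i`: the Hilbert space `H` is spanned by the vectors `J f`
of the test functions `f` of the half space, their inner products are given by `S` and the
reflection, and `T t` is the translation. -/
structure IsOS {n : ℕ} {H : Type} [NormedAddCommGroup H] [InnerProductSpace ℂ H] (i : Fin D)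
    (S : TF n D → ℂ) (T : ℝ → H →L[ℂ] H) (J : TF n D → H) : Prop where
  inner_eq : ∀ f g, HalfT i f → HalfT i g → inner ℂ (J f) (J g) = S (g - reflT i f)
  dense : Dense (Submodule.span ℂ (J '' {f | HalfT i f}) : Set H)
  transfer : ∀ t, 0 ≤ t → ∀ f, HalfT i f → T t (J f) = J (shiftT i t f)

/-- `T t = exp (-t H)`, `t ≥ 0`, for a Hamiltonian `H ≥ 0` with the vacuum `v`: a strongly continuous
semigroup of positive contractions which fixes the unit vector `v`. -/
structure IsSemi {H : Type} [NormedAddCommGroup H] [InnerProductSpace ℂ H]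
    (T : ℝ → H →L[ℂ] H) (v : H) : Prop where
  zero : T 0 = 1
  add : ∀ s t, 0 ≤ s → 0 ≤ t → T (s + t) = T s * T t
  cont : ∀ x, ContinuousOn (fun t => T t x) (Ici 0)
  pos : ∀ t, 0 ≤ t → (T t).IsPositive
  norm : ∀ t, 0 ≤ t → ‖T t‖ ≤ 1
  vac : ∀ t, 0 ≤ t → T t v = v
  one : ‖v‖ = 1

/-- The mass gap over the vacuum `v` is exactly `m`: the norm of `T t` on the orthogonal complement
of `v` is `exp (-m t)`, for all `t ≥ 0`. -/
def MassGap {H : Type} [NormedAddCommGroup H] [InnerProductSpace ℂ H]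
    (T : ℝ → H →L[ℂ] H) (v : H) (m : ℝ) : Prop :=
  ∀ t, 0 ≤ t → IsLeast {c : ℝ | 0 ≤ c ∧ ∀ x, inner ℂ v x = 0 → ‖T t x‖ ≤ c * ‖x‖}
    (Real.exp (-(m * t)))

/-! ### The theorem -/

/-- Part 1, at fixed lattice spacing: existence, uniqueness and mass gap, uniformly in `L`. -/
def LatticeTheory (G : Subgroup (unitaryGroup (Fin N) ℂ)) [MeasurableSpace G] (μ : Measure G)
    (D : ℕ) : Prop :=
  ∀ ε : ℝ, 0 < ε → ε < 1 → ∃ K : ℕ, ∀ L : ℕ, 1 ≤ L → ∀ β : ℝ, (K : ℝ) * (L : ℝ) ^ K ≤ β →
    ∃ P : Measure (Link D L → G), IsYM μ β P ∧ (∀ P', IsYM μ β P' → P' = P) ∧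
      Clusters μ β P ((1 - ε) * mass L) ∧
      ∀ i : Fin D, (∀ F, Half i F → 0 ≤ corr i P F 0) ∧ Gap i P ((1 - ε) * mass L) ∧
        (∀ m, GapInv i P m → m ≤ (1 + ε) * mass L) ∧
        latMass i P ∈ Icc ((1 - ε) * mass L) ((1 + ε) * mass L) ∧
        latMassInv i P ∈ Icc ((1 - ε) * mass L) ((1 + ε) * mass L)

/-- Part 1, in the continuum limit: the mass in physical units tends to `π / 2`. -/
def PhysicalMass (G : Subgroup (unitaryGroup (Fin N) ℂ)) [MeasurableSpace G] (μ : Measure G)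
    (D : ℕ) : Prop :=
  ∀ b : ℕ → ℝ, (∀ k : ℕ, ∀ᶠ L : ℕ in atTop, (L : ℝ) ^ k ≤ b L) →
    ∀ P : (L : ℕ) → Measure (Link D L → G), (∀ᶠ L : ℕ in atTop, IsYM μ (b L) (P L)) →
      ∀ i : Fin D,
        Tendsto (fun L : ℕ => (L : ℝ) * latMass i (P L)) atTop (𝓝 (Real.pi / 2)) ∧
        Tendsto (fun L : ℕ => (L : ℝ) * latMassInv i (P L)) atTop (𝓝 (Real.pi / 2))

/-- Part 2: the continuum limit of the gauge field. The power `K₀` is universal, and the limit does
not depend on the sequence of the couplings. -/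
def ContinuumLimit (G : Subgroup (unitaryGroup (Fin N) ℂ)) [MeasurableSpace G] (μ : Measure G)
    (D : ℕ) : Prop :=
  ∀ n : ℕ, ∃ K₀ : ℕ, ∀ X : Fin n → Matrix (Fin N) (Fin N) ℂ, (∀ j, InLie G (X j)) → Ortho X →
    ∀ f : TF n D, (∀ j, Continuous (f j)) → (∀ j, HasCompactSupport (f j)) →
    ∀ b : ℕ → ℝ, (∀ᶠ L : ℕ in atTop, (L : ℝ) ^ K₀ ≤ b L) →
    ∀ P : (L : ℕ) → Measure (Link D L → G), (∀ᶠ L : ℕ in atTop, IsYM μ (b L) (P L)) →
      Tendsto (fun L : ℕ => ∫ U, Complex.exp (Complex.I *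
        ((∑ j, smear (b L) (X j) (f j) U : ℝ) : ℂ)) ∂P L) atTop (𝓝 (charS f))

/-- Part 4: the first correction. The amputated fields have the covariance `form` in the continuum
limit, and their third moments, multiplied with `√β L ^ ((D - 3) / 2)` (that is with `√β` in dimension
four), converge to the three-gluon vertex with the structure constant `Re tr (X0ᴴ [X1, X2])`. -/
def FirstCorrection (G : Subgroup (unitaryGroup (Fin N) ℂ)) [MeasurableSpace G] (μ : Measure G)
    (D : ℕ) : Prop :=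
  (∃ K₀ : ℕ, ∀ X : Fin 3 → Matrix (Fin N) (Fin N) ℂ, (∀ j, InLie G (X j)) → Ortho X →
    ∀ φ : TF 3 D, (∀ j, IsTest (φ j)) →
    ∀ b : ℕ → ℝ, (∀ᶠ L : ℕ in atTop, (L : ℝ) ^ K₀ ≤ b L) →
    ∀ P : (L : ℕ) → Measure (Link D L → G), (∀ᶠ L : ℕ in atTop, IsYM μ (b L) (P L)) →
      (∀ i j, Tendsto (fun L : ℕ => ∫ U, amp (b L) (X i) (φ i) U * amp (b L) (X j) (φ j) U ∂P L) atTop
        (𝓝 (if i = j then form (φ i) (φ j) else 0))) ∧
      Tendsto (fun L : ℕ => Real.sqrt (b L) * (L : ℝ) ^ (((D : ℝ) - 3) / 2) * ∫ U,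
        amp (b L) (X 0) (φ 0) U * amp (b L) (X 1) (φ 1) U * amp (b L) (X 2) (φ 2) U ∂P L) atTop
        (𝓝 (-(trace ((X 0)ᴴ * (X 1 * X 2 - X 2 * X 1))).re * vertex φ))) ∧
  ∃ φ : TF 3 D, (∀ j, IsTest (φ j)) ∧ vertex φ ≠ 0

/-- Part 3: the continuum theory. It is invariant under the horizontal motions, not degenerate, and
for every direction `i` of the Euclidean time its Osterwalder-Schrader reconstruction exists and
has the mass gap exactly `π / 2`. -/
def ContinuumTheory (D : ℕ) : Prop :=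
  (∀ (A : Matrix (Fin D) (Fin D) ℝ), A ∈ orthogonalGroup (Fin D) ℝ → ∀ (v : Fin D → ℝ)
    (f : Pt D → Fin D → ℝ), Continuous f → HasCompactSupport f → var (motion A v f) = var f) ∧
  (∀ f : Pt D → Fin D → ℝ, Continuous f → HasCompactSupport f →
    (∃ p : Pt D, 0 < p.2 ∧ p.2 ≤ 1 ∧ f p ≠ 0) → 0 < var f) ∧
  ∀ (n : ℕ), 1 ≤ n → ∀ i : Fin D,
    ∃ (H : Type) (_ : NormedAddCommGroup H) (_ : InnerProductSpace ℂ H) (_ : CompleteSpace H)
      (T : ℝ → H →L[ℂ] H) (J : TF n D → H),
      IsOS i charS T J ∧ IsSemi T (J 0) ∧ MassGap T (J 0) (Real.pi / 2)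

/-! ### Proofs -/

section proofs

open Pool.Agent.N986.SL (chi)

omit [MeasurableSpace G] in
lemma dens_eq (U : Link D L → G) (x : Fin D → ℤ) :
    dens U x = Pool.Agent.N986.SL.dens chi U x := rfl

lemma expect_eq (μ : Measure G) (β : ℝ) (M : Finset (Link D L)) (U : Link D L → G)
    (F : (Link D L → G) → ℝ) :
    expect μ β M U F = Pool.Agent.N986.SL.expect μ chi β M U F := rfl

lemma isYM_iff {μ : Measure G} {β : ℝ} {P : Measure (Link D L → G)} :
    IsYM μ β P ↔ Pool.Agent.N986.SL.Dlr μ chi β P :=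
  ⟨fun h => ⟨h.prob, h.dlr⟩, fun h => ⟨h.prob, h.dlr⟩⟩

lemma half_iff {i : Fin D} {F : (Link D L → G) → ℝ} :
    Half i F ↔ Pool.Agent.N986.SL.Half i F :=
  ⟨fun h => ⟨h.meas, h.bdd, h.loc⟩, fun h => ⟨h.meas, h.bdd, h.loc⟩⟩

lemma corr_eq (i : Fin D) (P : Measure (Link D L → G)) (F : (Link D L → G) → ℝ) (n : ℕ) :
    corr i P F n = Pool.Agent.N986.SL.corr i P F n := rfl

omit [MeasurableSpace G] in
lemma gauge_eq (g : (Fin D → ℤ) → ℕ → G) (U : Link D L → G) :
    gauge g U = Pool.Agent.N986.SL.gt g U := rfl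

lemma mass_eq (L : ℕ) : mass L = Pool.Agent.N986.SL.mass L := rfl

lemma Gap.inv {i : Fin D} {P : Measure (Link D L → G)} {m : ℝ} (h : Gap i P m) : GapInv i P m :=
  fun F hF _ n => h F hF n

/-- the two masses, from the two bounds -/
lemma masses {i : Fin D} {P : Measure (Link D L → G)} {a b : ℝ} (h1 : Gap i P a)
    (h2 : ∀ m, GapInv i P m → m ≤ b) : latMass i P ∈ Icc a b ∧ latMassInv i P ∈ Icc a b := by
  have n1 : ({m : ℝ | Gap i P m}).Nonempty := ⟨a, h1⟩
  have n2 : ({m : ℝ | GapInv i P m}).Nonempty := ⟨a, h1.inv⟩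
  have b1 : BddAbove {m : ℝ | Gap i P m} := ⟨b, fun m hm => h2 m (Gap.inv hm)⟩
  have b2 : BddAbove {m : ℝ | GapInv i P m} := ⟨b, fun m hm => h2 m hm⟩
  exact ⟨⟨le_csSup b1 h1, csSup_le n1 fun m hm => h2 m (Gap.inv hm)⟩,
    ⟨le_csSup b2 h1.inv, csSup_le n2 fun m hm => h2 m hm⟩⟩

variable [BorelSpace G]

theorem lattice (hG : IsClosed (G : Set (unitaryGroup (Fin N) ℂ))) [Infinite G] (μ : Measure G)
    [IsProbabilityMeasure μ] [μ.IsMulLeftInvariant] (hD : 2 ≤ D) : LatticeTheory G μ D := by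
  intro ε hε hε1
  obtain ⟨K₁, h1⟩ := Pool.Agent.H586.SLB.latticeL hG μ D hε hε1
  obtain ⟨K₂, h2⟩ := Pool.Agent.H586.SLB.upperK hG μ D hε hε1.le
  refine ⟨max K₁ K₂, fun L hL β hβ => ?_⟩
  have hL' : (1 : ℝ) ≤ L := by exact_mod_cast hL
  have hle : ∀ k : ℕ, k ≤ max K₁ K₂ → (k : ℝ) * (L : ℝ) ^ k ≤ β := by
    intro k hk
    refine le_trans ?_ hβ
    have h3 : (k : ℝ) ≤ (max K₁ K₂ : ℕ) := by exact_mod_cast hk
    exact mul_le_mul h3 (pow_le_pow_right₀ hL' hk) (by positivity) (Nat.cast_nonneg _)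
  obtain ⟨P, hP, hu, ⟨C, hc1, hc2⟩, hgap⟩ := h1 L hL β (hle K₁ (le_max_left _ _))
  have hlow : ∀ i : Fin D, Gap i P ((1 - ε) * mass L) := fun i F hF n =>
    (hgap i F (half_iff.1 hF)).2 n
  have hup : ∀ i : Fin D, ∀ m, GapInv i P m → m ≤ (1 + ε) * mass L := by
    intro i m hm
    obtain ⟨i1, hi1⟩ : ∃ i1 : Fin D, i ≠ i1 := by
      have : Nontrivial (Fin D) := Fin.nontrivial_iff_two_le.2 hD
      obtain ⟨i1, h⟩ := exists_ne i
      exact ⟨i1, h.symm⟩
    obtain ⟨F, hF, -, hinv, hbd⟩ := h2 L hL β (hle K₂ (le_max_right _ _)) hi1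
    obtain ⟨h3, h4⟩ := hbd P hP
    have h5 := hm F (half_iff.2 hF) (fun g hg U => hinv g hg U) 2
    rw [corr_eq, corr_eq] at h5
    have h6 := h4.trans ((le_abs_self _).trans h5)
    have h7 := le_of_mul_le_mul_right h6 h3
    rw [Real.exp_le_exp] at h7
    have h8 : (Pool.Agent.N986.SL.mass L : ℝ) = mass L := rfl
    rw [h8] at h7
    push_cast at h7
    linarith
  refine ⟨P, isYM_iff.2 hP, fun P' hP' => hu P' (isYM_iff.1 hP'), ⟨C, ?_, ?_⟩, fun i =>
    ⟨fun F hF => (hgap i F (half_iff.1 hF)).1, hlow i, hup i, masses (hlow i) (hup i)⟩⟩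
  · intro V A r hA F hF hF1 hFA U
    exact hc1 V A r hA F hF hF1 hFA U
  · intro A B r hAB F F' hF hF' hF1 hF1' hFA hFB
    exact hc2 A B r hAB F F' hF hF' hF1 hF1' hFA hFB

lemma squeeze_mass {a : ℕ → ℝ} (h : ∀ ε : ℝ, 0 < ε → ε < 1 → ∀ᶠ L : ℕ in atTop,
    a L ∈ Icc ((1 - ε) * mass L) ((1 + ε) * mass L)) :
    Tendsto (fun L : ℕ => (L : ℝ) * a L) atTop (𝓝 (Real.pi / 2)) := by
  have hm : Tendsto (fun L : ℕ => (L : ℝ) * mass L) atTop (𝓝 (Real.pi / 2)) :=
    Pool.Agent.N986.SL.tendsto_mass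
  have hπ := Real.pi_pos
  rw [Metric.tendsto_atTop]
  intro η hη
  obtain ⟨ε, hε⟩ : ∃ ε, ε = min (1 / 2) (η / (2 * (Real.pi / 2 + 1))) := ⟨_, rfl⟩
  have hε0 : 0 < ε := by rw [hε]; positivity
  have hε1 : ε < 1 := by rw [hε]; exact lt_of_le_of_lt (min_le_left _ _) (by norm_num)
  have hε2 : ε * (Real.pi / 2 + 1) ≤ η / 2 := by
    have h1 : ε ≤ η / (2 * (Real.pi / 2 + 1)) := by rw [hε]; exact min_le_right _ _
    rw [le_div_iff₀ (by positivity)] at h1
    linarith
  have h2 := Metric.tendsto_atTop.1 hm (min (η / 2) 1) (by positivity)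
  obtain ⟨n1, hn1⟩ := h2
  obtain ⟨n2, hn2⟩ := eventually_atTop.1 (h ε hε0 hε1)
  refine ⟨max n1 n2, fun L hL => ?_⟩
  have h3 := hn1 L ((le_max_left _ _).trans hL)
  obtain ⟨h4, h5⟩ := hn2 L ((le_max_right _ _).trans hL)
  rw [Real.dist_eq, abs_lt] at h3 ⊢
  have h6 : min (η / 2) 1 ≤ η / 2 := min_le_left _ _
  have h7 : min (η / 2) 1 ≤ 1 := min_le_right _ _
  have hL0 : (0 : ℝ) ≤ L := Nat.cast_nonneg _
  have h8 := mul_le_mul_of_nonneg_left h4 hL0
  have h9 := mul_le_mul_of_nonneg_left h5 hL0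
  obtain ⟨x, hx⟩ : ∃ x, x = (L : ℝ) * mass L := ⟨_, rfl⟩
  have e1 : (L : ℝ) * ((1 - ε) * mass L) = (1 - ε) * x := by rw [hx]; ring
  have e2 : (L : ℝ) * ((1 + ε) * mass L) = (1 + ε) * x := by rw [hx]; ring
  rw [e1] at h8
  rw [e2] at h9
  rw [← hx] at h3
  have h10 : ε * x ≤ η / 2 := by
    refine le_trans ?_ hε2
    exact mul_le_mul_of_nonneg_left (by linarith [h3.2]) hε0.le
  constructor
  · linarith [h3.1]
  · linarith [h3.2]

theorem physical (hG : IsClosed (G : Set (unitaryGroup (Fin N) ℂ))) [Infinite G] (μ : Measure G)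
    [IsProbabilityMeasure μ] [μ.IsMulLeftInvariant] (hD : 2 ≤ D) : PhysicalMass G μ D := by
  intro b hb P hP i
  have key : ∀ ε : ℝ, 0 < ε → ε < 1 → ∀ᶠ L : ℕ in atTop,
      latMass i (P L) ∈ Icc ((1 - ε) * mass L) ((1 + ε) * mass L) ∧
      latMassInv i (P L) ∈ Icc ((1 - ε) * mass L) ((1 + ε) * mass L) := by
    intro ε hε hε1
    obtain ⟨K, hK⟩ := lattice (D := D) hG μ hD ε hε hε1
    filter_upwards [hb (K + 1), hP, eventually_ge_atTop 1, eventually_ge_atTop K] with L h1 h2 h3 h4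
    have hL' : (1 : ℝ) ≤ L := by exact_mod_cast h3
    have hK' : (K : ℝ) ≤ L := by exact_mod_cast h4
    have h5 : (K : ℝ) * (L : ℝ) ^ K ≤ b L := by
      refine le_trans ?_ h1
      rw [pow_succ']
      exact mul_le_mul_of_nonneg_right hK' (by positivity)
    obtain ⟨P', -, hu, -, hi⟩ := hK L h3 (b L) h5
    rw [hu _ h2]
    exact (hi i).2.2.2
  exact ⟨squeeze_mass fun ε h1 h2 => (key ε h1 h2).mono fun L h => h.1,
    squeeze_mass fun ε h1 h2 => (key ε h1 h2).mono fun L h => h.2⟩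

omit [MeasurableSpace G] [BorelSpace G] in
lemma hv_eq (U : Link D L → G) (x : Fin D → ℤ) (s : ℕ) :
    hv U x s = Pool.Agent.N986.SL.hv U x s := by
  induction s with
  | zero => rfl
  | succ s ih =>
    unfold hv Pool.Agent.N986.SL.hv
    rw [ih]

omit [MeasurableSpace G] [BorelSpace G] in
lemma comp_eq (X : Matrix (Fin N) (Fin N) ℂ) (U : Link D L → G) (x : Fin D → ℤ)
    (a : Fin D × Fin L) :
    comp X U x a = Pool.Agent.N109.Slab.sc X (Pool.Agent.N986.SL.ax U) x a := by
  have h : axial U x a = Pool.Agent.N986.SL.ax U x a := by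
    unfold axial Pool.Agent.N986.SL.ax
    rw [hv_eq, hv_eq]
    rfl
  unfold comp Pool.Agent.N109.Slab.sc Pool.Agent.N990.ip Pool.Agent.N990.Yf
  rw [h]
  rfl

omit [MeasurableSpace G] [BorelSpace G] in
lemma smear_eq {b : ℝ} (X : Matrix (Fin N) (Fin N) ℂ) {f : Pt D → Fin D → ℝ} {K : ℕ}
    (hK : ∀ p, f p ≠ 0 → ‖p‖ ≤ K) (hL : 1 ≤ L) (U : Link D L → G) :
    smear b X f U = Real.sqrt b * Pool.Agent.N109.Slab.pr (Pool.Agent.N109.Slab.box D (K * L))
      (Pool.Agent.N109.CL.fL f L) (Pool.Agent.N109.Slab.sc X (Pool.Agent.N986.SL.ax U)) := by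
  unfold smear
  congr 1
  have e1 : ∀ (x : Fin D → ℤ) (a : Fin D × Fin L),
      (L : ℝ) ^ (-(((D : ℝ) + 3) / 2)) *
        f (fun j => (x j : ℝ) / L, (((a.2 : ℕ) : ℝ) + 1) / L) a.1 * comp X U x a =
      Pool.Agent.N109.CL.fL f L x a *
        Pool.Agent.N109.Slab.sc X (Pool.Agent.N986.SL.ax U) x a := by
    intro x a
    have e2 : Pool.Agent.N990.C.emb L (x, ((a.2 : ℕ) : ℤ) + 1) =
        ((fun j => (x j : ℝ) / L, (((a.2 : ℕ) : ℝ) + 1) / L) : Pt D) := by
      unfold Pool.Agent.N990.C.emb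
      simp
    unfold Pool.Agent.N109.CL.fL
    rw [e2, comp_eq]
  have e3 : (fun x : Fin D → ℤ => ∑ a : Fin D × Fin L, (L : ℝ) ^ (-(((D : ℝ) + 3) / 2)) *
        f (fun j => (x j : ℝ) / L, (((a.2 : ℕ) : ℝ) + 1) / L) a.1 * comp X U x a) =
      fun x => ∑ a : Fin D × Fin L, Pool.Agent.N109.CL.fL f L x a *
        Pool.Agent.N109.Slab.sc X (Pool.Agent.N986.SL.ax U) x a := by
    funext x
    exact Finset.sum_congr rfl fun a _ => e1 x a
  rw [e3]
  unfold Pool.Agent.N109.Slab.pr
  refine finsum_eq_sum_of_support_subset _ fun x hx => ?_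
  rw [Function.mem_support] at hx
  by_contra hcon
  apply hx
  have h1 := Pool.Agent.N109.CL.fL_supp hK hL (x := x) (by simpa using hcon)
  refine Finset.sum_eq_zero fun a _ => ?_
  rw [h1]
  simp

lemma var_eq (f : Pt D → Fin D → ℝ) : var f = Pool.Agent.N990.C.QC f := by
  unfold var Pool.Agent.N990.C.QC
  congr 1
  ext t
  constructor
  · rintro ⟨u, hu, rfl⟩
    exact ⟨u, ⟨hu.smooth, hu.supp, hu.wall⟩, rfl⟩
  · rintro ⟨u, hu, rfl⟩
    exact ⟨u, ⟨hu.smooth, hu.supp, hu.wall⟩, rfl⟩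

lemma charS_eq {n : ℕ} (f : TF n D) : charS f = Pool.Agent.N990.OS.Sc f := by
  unfold charS Pool.Agent.N990.OS.Sc
  simp only [var_eq]

theorem limit (hG : IsClosed (G : Set (unitaryGroup (Fin N) ℂ))) (μ : Measure G)
    [IsProbabilityMeasure μ] [μ.IsMulLeftInvariant] : ContinuumLimit G μ D := by
  intro n
  obtain ⟨K₀, hK₀⟩ := Pool.Agent.H586.SLB.fieldL hG μ D n
  refine ⟨K₀, fun X hX hort f hf hfs b hb P hP => ?_⟩
  obtain ⟨K, hK⟩ : ∃ K : ℕ, ∀ j p, f j p ≠ 0 → ‖p‖ ≤ K := by
    have h1 : ∀ j, ∃ K : ℕ, ∀ p, f j p ≠ 0 → ‖p‖ ≤ K := by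
      intro j
      obtain ⟨R, hR⟩ := (hfs j).isCompact.isBounded.subset_closedBall (0 : Pt D)
      obtain ⟨K, hK⟩ := exists_nat_ge R
      refine ⟨K, fun p hp => ?_⟩
      have h2 := hR (subset_tsupport _ (Function.mem_support.2 hp))
      rw [mem_closedBall_zero_iff] at h2
      exact h2.trans hK
    choose K hK using h1
    refine ⟨∑ j, K j, fun j p hp => (hK j p hp).trans ?_⟩
    exact_mod_cast Finset.single_le_sum (f := K) (fun _ _ => Nat.zero_le _) (Finset.mem_univ j)
  have h1 := hK₀ X hX hort f hf K hK b hb P (by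
    filter_upwards [hP] with L hL
    exact isYM_iff.1 hL)
  have e1 : charS f = Complex.exp (-(((∑ j, Pool.Agent.N990.C.QC (f j)) / 2 : ℝ) : ℂ)) := by
    rw [charS_eq]
    unfold Pool.Agent.N990.OS.Sc
    rw [Complex.ofReal_exp, neg_div]
    push_cast
    rfl
  rw [e1]
  refine h1.congr' ?_
  filter_upwards [eventually_ge_atTop 1] with L hL
  refine integral_congr_ae (Eventually.of_forall fun U => ?_)
  show Complex.exp _ = Complex.exp _
  congr 3
  rw [Finset.mul_sum]
  refine Finset.sum_congr rfl fun j _ => ?_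
  rw [smear_eq (X j) (hK j) hL U]

omit [MeasurableSpace G] [BorelSpace G] in
lemma amp_eq {b : ℝ} (X : Matrix (Fin N) (Fin N) ℂ) {φ : Pt D → Fin D → ℝ} {K : ℕ} (hL : 1 ≤ L)
    (hK : ∀ x, x ∉ Pool.Agent.N109.Slab.box D (K * L) →
      (Pool.Agent.N839.C.rs L φ : Pool.Agent.N109.Slab.SF D L) x = 0) (U : Link D L → G) :
    amp b X φ U = Pool.Agent.H586.GLU.am b K φ X (Pool.Agent.N986.SL.ax U) := by
  have e1 : (test L φ : (Fin D → ℤ) → Fin D × Fin L → ℝ) = Pool.Agent.H586.GLU.om L φ := by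
    funext x a
    have e2 : Pool.Agent.N990.C.emb L (x, ((a.2 : ℕ) : ℤ) + 1) =
        ((fun j => (x j : ℝ) / L, (((a.2 : ℕ) : ℝ) + 1) / L) : Pt D) := by
      unfold Pool.Agent.N990.C.emb
      simp
    show _ = Pool.Agent.H586.GLU.lam D L * φ (Pool.Agent.N990.C.emb L (x, ((a.2 : ℕ) : ℤ) + 1)) a.1
    rw [e2]
    rfl
  have e3 : (comp X U : (Fin D → ℤ) → Fin D × Fin L → ℝ) = fun y c =>
      Pool.Agent.N990.ip X (Pool.Agent.N990.Yf (Pool.Agent.N986.SL.ax U) y c) := by
    funext y c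
    exact comp_eq X U y c
  have e4 : ∀ (u v : (Fin D → ℤ) → Fin D × Fin L → ℝ) (x : Fin D → ℤ),
      curl2 u v x = Pool.Agent.N990.bx u v x := fun u v x => rfl
  unfold amp Pool.Agent.H586.GLU.am
  congr 1
  have e5 : (fun x : Fin D → ℤ => curl2 (test L φ) (comp X U) x) = fun x =>
      Pool.Agent.N990.bx (Pool.Agent.H586.GLU.om L φ) (fun y c =>
        Pool.Agent.N990.ip X (Pool.Agent.N990.Yf (Pool.Agent.N986.SL.ax U) y c)) x := by
    funext x
    rw [e4, e1, e3]
  rw [e5]
  refine finsum_eq_sum_of_support_subset _ fun x hx => ?_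
  rw [Function.mem_support] at hx
  by_contra hcon
  apply hx
  have h0 : ∀ y, y ∉ Pool.Agent.N109.Slab.box D (K * L) →
      (Pool.Agent.H586.GLU.om L φ : Pool.Agent.N109.Slab.SF D L) y = 0 := fun y hy =>
    Pool.Agent.H586.GLU.om_out hK hy
  have h1 : x ∉ Pool.Agent.N990.Ns (Pool.Agent.N109.Slab.box D (K * L)) := hcon
  rw [Pool.Agent.N990.mem_Ns, not_or] at h1
  exact Pool.Agent.N990.bx_zero (h0 x h1.1) fun i => h0 _ fun hi => h1.2 ⟨i, hi⟩

omit [MeasurableSpace G] [BorelSpace G] in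
lemma isTest_iff {u : Pt D → Fin D → ℝ} : IsTest u ↔ Pool.Agent.N990.C.IsTest u :=
  ⟨fun h => ⟨h.smooth, h.supp, h.wall⟩, fun h => ⟨h.smooth, h.supp, h.wall⟩⟩

theorem first (hG : IsClosed (G : Set (unitaryGroup (Fin N) ℂ))) (μ : Measure G)
    [IsProbabilityMeasure μ] [μ.IsMulLeftInvariant] (hD : 2 ≤ D) : FirstCorrection G μ D := by
  refine ⟨?_, ?_⟩
  · obtain ⟨K₀, hK₀⟩ := Pool.Agent.H586.GLU.gluon hG μ D
    refine ⟨K₀, fun X hX hort φ hφ b hb P hP => ?_⟩
    obtain ⟨K, hK⟩ := Pool.Agent.H586.GLU.supp_box (fun j => isTest_iff.1 (hφ j))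
    obtain ⟨g1, g2⟩ := hK₀ X hX hort φ (fun j => isTest_iff.1 (hφ j)) K hK b hb P (by
      filter_upwards [hP] with L hL
      exact isYM_iff.1 hL)
    refine ⟨fun i j => ?_, ?_⟩
    · refine (g1 i j).congr' ?_
      filter_upwards [eventually_ge_atTop 1] with L hL
      refine integral_congr_ae (Eventually.of_forall fun U => ?_)
      simp only
      rw [amp_eq (X i) hL (hK i L hL), amp_eq (X j) hL (hK j L hL)]
    · have h2 := Pool.Agent.H586.GLU.vertex_eq
        (fun j => Pool.Agent.H376.GLU.skew (X j) (hX j)) (fun j => isTest_iff.1 (hφ j))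
      rw [h2] at g2
      refine g2.congr' ?_
      filter_upwards [eventually_ge_atTop 1] with L hL
      congr 1
      refine integral_congr_ae (Eventually.of_forall fun U => ?_)
      simp only
      rw [amp_eq (X 0) hL (hK 0 L hL), amp_eq (X 1) hL (hK 1 L hL), amp_eq (X 2) hL (hK 2 L hL)]
  · obtain ⟨φ0, φ1, φ2, h0, h1, h2, h3⟩ := Pool.Agent.H662.GLU.nz hD
    refine ⟨![φ0, φ1, φ2], fun j => ?_, h3.ne'⟩
    fin_cases j
    · exact isTest_iff.2 h0
    · exact isTest_iff.2 h1
    · exact isTest_iff.2 h2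

omit [MeasurableSpace G] [BorelSpace G] in
theorem theory (hD : 2 ≤ D) : ContinuumTheory D := by
  refine ⟨fun A hA v f hf hfs => ?_, fun f hf hfs h => ?_, fun n hn i => ?_⟩
  · rw [var_eq, var_eq]
    exact Pool.Agent.N839.C.QC_mot hA v hf hfs
  · rw [var_eq]
    exact Pool.Agent.N109.CL.QC_pos hf hfs h
  · obtain ⟨H, i1, i2, i3, T, J, hos, hs, hm⟩ := Pool.Agent.H586.SLB.os_slab hn hD i
    refine ⟨H, i1, i2, i3, T, J, ⟨fun f g hf hg => ?_, ?_, fun t ht f hf => ?_⟩,
      ⟨hs.zero, hs.add, hs.cont, hs.pos, hs.norm, hs.vac, hs.one⟩, hm⟩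
    · rw [charS_eq]
      exact hos.inner_eq f g ⟨hf.cont, hf.supp, hf.half⟩ ⟨hg.cont, hg.supp, hg.half⟩
    · have e : {f : TF n D | HalfT i f} = {f | Pool.Agent.N990.OS.Half i f} := by
        ext f
        exact ⟨fun h => ⟨h.cont, h.supp, h.half⟩, fun h => ⟨h.cont, h.supp, h.half⟩⟩
      rw [e]
      exact hos.dense
    · exact hos.transfer t ht f ⟨hf.cont, hf.supp, hf.half⟩

end proofs

end

/-- **Lattice Yang-Mills theory in a slab**: the mass gap uniformly in the lattice spacing, the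
continuum limit of the gauge field, and its Osterwalder-Schrader reconstruction with the mass gap
exactly `π / 2` (the inverse of the thickness of the slab is the unit of mass). -/
theorem result {N : ℕ} (G : Subgroup (unitaryGroup (Fin N) ℂ)) [Infinite G]
    (hG : IsClosed (G : Set (unitaryGroup (Fin N) ℂ))) [MeasurableSpace G] [BorelSpace G]
    (μ : Measure G) [IsProbabilityMeasure μ] [μ.IsMulLeftInvariant] {D : ℕ} (hD : 2 ≤ D) :
    LatticeTheory G μ D ∧
    Tendsto (fun L : ℕ => (L : ℝ) * mass L) atTop (𝓝 (Real.pi / 2)) ∧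
    PhysicalMass G μ D ∧ ContinuumLimit G μ D ∧ ContinuumTheory D ∧ FirstCorrection G μ D :=
  ⟨lattice hG μ hD, Pool.Agent.N986.SL.tendsto_mass, physical hG μ hD, limit hG μ, theory hD,
    first hG μ hD⟩

end Pool.Agent.Results.MP_7f377f_mp.SlabContinuumLimit
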