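import Mathlib
import Pool.Graph.R_seed8.H906R3.YM.Conc
import Pool.Graph.R_seed8.W793.SCH.All
import Pool.Graph.R_seed8.TH369.WL.Sub
import Pool.Agent.H991.TV.Inf

/-!
# Lattice Yang-Mills theory: the local law at weak coupling in total variation

Wilson's lattice gauge theory in dimension `d ≥ 3` with gauge group an arbitrary closed subgroup `G`
of `U(N)`, of dimension `n`, at the inverse coupling `β`, on the tori `(ℤ/l)^d` with `l ≥ β` even and
in all their infinite volume limits. Fix the comb gauge in a box of side `R`. The vector `X` of the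
`n` Lie algebra coordinates of all the links of the box outside the comb, multiplied by `√β`, has a
law whose distance in total variation from the Gaussian law of `n` independent free Maxwell fields
in the same gauge is at most `C R ^ (3 d + 4) / β ^ (1 / (96 (d + 2)))`, for all `R ≥ 1` and `β ≥ 1`.
Any two laws of the theory at the same `β` (finite or infinite volume) agree on the bounded
measurable gauge invariant functions of the links of the box up to the same error.
-/

open MeasureTheory Matrix Filter
open scoped Matrix.Norms.Frobenius Topology ContDiff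

namespace Pool.Agent.Results.MP_7f377f_mp.TotalVariationLocalLaw

set_option linter.unusedSectionVars false

noncomputable section

/-- Complex `N × N` matrices. -/
abbrev Mt (N : ℕ) := Matrix (Fin N) (Fin N) ℂ

/-- The unitary group `U(N)`. -/
abbrev UU (N : ℕ) := Matrix.unitaryGroup (Fin N) ℂ

/-- The matrix of an element of a subgroup of `U(N)`. -/
def mt {N : ℕ} {G : Subgroup (UU N)} (g : G) : Mt N := ((g : UU N) : Mt N)

/-- An orthonormal basis `X` of the Lie algebra of `G`, that is of the real space of all matrices `Y`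
with `exp (t Y) ∈ G` for all real `t`, with the scalar product `Re tr (Y* Z)`; `ex a t` is the
element `exp (t X_a)` of `G`. -/
structure LieBasis {N : ℕ} (G : Subgroup (UU N)) (n : ℕ) where
  X : Fin n → Mt N
  ex : Fin n → ℝ → G
  ex_eq : ∀ a t, mt (ex a t) = NormedSpace.exp (t • X a)
  orth : ∀ a b, (trace ((X a)ᴴ * X b)).re = if a = b then 1 else 0
  full : ∀ Y : Mt N, (∀ t : ℝ, ∃ g : G, mt g = NormedSpace.exp (t • Y)) →
    Y ∈ Submodule.span ℝ (Set.range X)

/-- Links of the periodic lattice `(ℤ/l)^d`: base point and direction. -/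
abbrev Link (d l : ℕ) := (Fin d → ZMod l) × Fin d

/-- Links of the lattice `ℤ^d`: base point and direction. -/
abbrev LinkZ (d : ℕ) := (Fin d → ℤ) × Fin d

section

variable {N n d l : ℕ} {G : Subgroup (UU N)}

/-- The product of the link variables around the plaquette at `x` in the directions `i`, `j`. -/
def plaq (U : Link d l → G) (x : Fin d → ZMod l) (i j : Fin d) : G :=
  U (x, i) * U (x + Pi.single i 1, j) * (U (x + Pi.single j 1, i))⁻¹ * (U (x, j))⁻¹

/-- The Wilson action `∑_p Re tr (1 - U_p)`, the sum over the plaquettes. -/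
def action [NeZero l] (U : Link d l → G) : ℝ :=
  ∑ x : Fin d → ZMod l, ∑ i : Fin d, ∑ j : Fin d,
    if i < j then (trace (1 - mt (plaq U x i j))).re else 0

/-- The periodic extension of a configuration. -/
def per (U : Link d l → G) : LinkZ d → G := fun e => U (fun i => (e.1 i : ZMod l), e.2)

/-- The law of the lattice Yang-Mills theory on `(ℤ/l)^d`, the probability measure with density
proportional to `exp (-β S)`, `S` the action, with respect to the product of the Haar measures `μ`
of the links; as a measure on the periodic configurations on `ℤ^d`. -/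
def torus (l : ℕ) [NeZero l] [MeasurableSpace G] (μ : Measure G) (β : ℝ) :
    Measure (LinkZ d → G) :=
  ((Measure.pi fun _ : Link d l => μ).tilted fun U => -(β * action U)).map per

/-- `ν` is an infinite volume limit (weak limit along a subsequence) of the theories on the tori of
even side at inverse coupling `β`. -/
structure IsInfVol [MeasurableSpace G] (μ : Measure G) (β : ℝ)
    (ν : Measure (LinkZ d → G)) : Prop where
  prob : IsProbabilityMeasure ν
  lim : ∃ s : ℕ → ℕ, Tendsto s atTop atTop ∧ ∀ F : (LinkZ d → G) → ℝ, Continuous F →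
    Tendsto (fun j => ∫ V, F V ∂(torus (2 * (s j + 1)) μ β)) atTop (𝓝 (∫ V, F V ∂ν))

/-- `P` is the law of the lattice Yang-Mills theory at inverse coupling `β` on a torus of even side
at least `β`, or an infinite volume limit of such laws. -/
def IsYM [MeasurableSpace G] (μ : Measure G) (β : ℝ) (P : Measure (LinkZ d → G)) : Prop :=
  (∃ (l : ℕ) (_ : NeZero l), Even l ∧ β ≤ l ∧ P = torus l μ β) ∨ IsInfVol μ β P

/-- The product of the link variables along the lattice path with the given steps which starts at
the given point. The step `(i, true)` leads from `x` to `x + e_i`, the step `(i, false)` leads from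
`x` to `x - e_i`. -/
def hol (V : LinkZ d → G) : (Fin d → ℤ) → List (Fin d × Bool) → G
  | _, [] => 1
  | x, (i, true) :: p => V (x, i) * hol V (x + Pi.single i 1) p
  | x, (i, false) :: p => (V (x - Pi.single i 1, i))⁻¹ * hol V (x - Pi.single i 1) p

/-- Gauge invariant functions of the configuration. -/
def GaugeInv (F : (LinkZ d → G) → ℝ) : Prop :=
  ∀ (g : (Fin d → ℤ) → G) (V : LinkZ d → G),
    F (fun e => g e.1 * V e * (g (e.1 + Pi.single e.2 1))⁻¹) = F V

/-- Functions of the links of the box `x + [0, R]^d`. -/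
def OnBox (R : ℕ) (x : Fin d → ℤ) (F : (LinkZ d → G) → ℝ) : Prop :=
  ∀ V V' : LinkZ d → G, (∀ (y : Fin d → ℤ) (i : Fin d), (∀ j, x j ≤ y j ∧ y j ≤ x j + R) →
    y i + 1 ≤ x i + R → V (y, i) = V' (y, i)) → F V = F V'

/-- The laws `P` and `P'` agree up to the error `ε` on the measurable gauge invariant functions with
values in `[-1, 1]` of the links of the box `x + [0, R]^d`. -/
def Agree [MeasurableSpace G] (R : ℕ) (x : Fin d → ℤ) (P P' : Measure (LinkZ d → G)) (ε : ℝ) :
    Prop :=
  ∀ F : (LinkZ d → G) → ℝ, Measurable F → (∀ V, |F V| ≤ 1) → GaugeInv F → OnBox R x F →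
    |∫ V, F V ∂P - ∫ V, F V ∂P'| ≤ ε

end

/-- The laws `P` and `Q` of a random vector agree up to the error `ε` on the measurable functions
with values in `[-1, 1]`: their distance in total variation is at most `ε`. -/
def Close {ι : Type} (P Q : Measure (ι → ℝ)) (ε : ℝ) : Prop :=
  ∀ Φ : (ι → ℝ) → ℝ, Measurable Φ → (∀ y, |Φ y| ≤ 1) → |∫ y, Φ y ∂P - ∫ y, Φ y ∂Q| ≤ ε

/-- The comb path from `0` to the point `w`: `w_d` steps in the last direction, then `w_{d-1}` steps
in the previous one, and so on. -/
def comb {d : ℕ} (w : Fin d → ℕ) : List (Fin d × Bool) :=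
  (List.finRange d).reverse.flatMap fun i => List.replicate (w i) (i, true)

/-- The path which is passed in the opposite direction. -/
def back {d : ℕ} (p : List (Fin d × Bool)) : List (Fin d × Bool) :=
  p.reverse.map fun s => (s.1, !s.2)

/-- The closed path along the comb to the point `w`, through the link from `w` to `w + e_i` and back
along the comb. -/
def lasso {d : ℕ} (w : Fin d → ℕ) (i : Fin d) : List (Fin d × Bool) :=
  comb w ++ (i, true) :: back (comb (w + Pi.single i 1))

/-- The links `(w, i)` of the box `[0, R]^d` which are not on the comb, that is the links for which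
`w_j > 0` for some `j < i`. -/
abbrev BoxLink (d R : ℕ) :=
  {e : (Fin d → Fin (R + 1)) × Fin d // (e.1 e.2 : ℕ) + 1 ≤ R ∧ ∃ j < e.2, 0 < (e.1 j : ℕ)}

/-- The closed path of a link of the box. -/
def BoxLink.loop {d R : ℕ} (e : BoxLink d R) : List (Fin d × Bool) :=
  lasso (fun j => (e.1.1 j : ℕ)) e.1.2

/-- The rescaled Lie algebra coordinates `√β Re tr (X_a* U_e)` of the links `e` of the box
`x + [0, R]^d` in the comb gauge. -/
def field {N n d : ℕ} {G : Subgroup (UU N)} (B : LieBasis G n) (β : ℝ) (R : ℕ) (x : Fin d → ℤ)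
    (V : LinkZ d → G) : BoxLink d R × Fin n → ℝ := fun q =>
  Real.sqrt β * (trace ((B.X q.2)ᴴ * mt (hol V x q.1.loop))).re

/-- The links of a lattice path, with the value `true` for the links which are passed in the
positive direction. -/
def links {d : ℕ} : (Fin d → ℤ) → List (Fin d × Bool) → List (LinkZ d × Bool)
  | _, [] => []
  | x, (i, true) :: p => ((x, i), true) :: links (x + Pi.single i 1) p
  | x, (i, false) :: p => ((x - Pi.single i 1, i), false) :: links (x - Pi.single i 1) p

/-- The transition probabilities of the lazy random walk on `ℤ^d`, which stays with probability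
`1/2`. -/
def walk (d : ℕ) : ℕ → (Fin d → ℤ) → ℝ
  | 0, z => if z = 0 then 1 else 0
  | k + 1, z => 1 / 2 * walk d k z + 1 / (4 * d : ℝ) *
      ∑ i, (walk d k (z + Pi.single i 1) + walk d k (z - Pi.single i 1))

/-- The Green function of `-Δ`, `Δ f(z) = ∑_i (f(z + e_i) + f(z - e_i) - 2 f(z))`, on `ℤ^d`. -/
def green (d : ℕ) (z : Fin d → ℤ) : ℝ := 1 / (4 * d : ℝ) * ∑' k, walk d k z

/-- The double sum of the Green function over the links of two closed paths, the covariance of the
integrals of the free Maxwell field over the paths. -/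
def inter {d : ℕ} (p p' : List (Fin d × Bool)) : ℝ :=
  ((links 0 p).map fun e => ((links 0 p').map fun e' =>
    if e.1.2 = e'.1.2 then (if e.2 then 1 else -1) * (if e'.2 then 1 else -1) *
      green d (e.1.1 - e'.1.1) else 0).sum).sum

/-- The covariance matrix of `n` independent free Maxwell fields in the comb gauge. -/
def cov (n d R : ℕ) : Matrix (BoxLink d R × Fin n) (BoxLink d R × Fin n) ℝ := fun q q' =>
  if q.2 = q'.2 then inter q.1.loop q'.1.loop else 0

/-- The centred Gaussian measure with the covariance matrix `S`. -/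
def gauss {ι : Type} [Fintype ι] [DecidableEq ι] (S : Matrix ι ι ℝ) : Measure (ι → ℝ) :=
  (ProbabilityTheory.multivariateGaussian (0 : EuclideanSpace ℝ ι) S).map WithLp.ofLp

open Pool.Agent.H906R3 Pool.Agent.W793 Pool.Agent.TH369 Pool.Agent.H991

variable {N n d l : ℕ} {G : Subgroup (UU N)}

/-- The data in the form used by the helper files, with the opposite basis. -/
def fm (B : LieBasis G n) : YM.Frame G n where
  X := fun a => -B.X a
  ex := fun a t => B.ex a (-t)
  ex_eq := fun a t => by
    rw [smul_neg, ← neg_smul]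
    exact B.ex_eq a (-t)
  orth := fun a b => by
    rw [conjTranspose_neg, neg_mul_neg]
    exact B.orth a b
  full := fun Y h => by
    have h1 := B.full Y h
    have h2 : Submodule.span ℝ (Set.range fun a => -B.X a) =
        Submodule.span ℝ (Set.range B.X) := by
      refine le_antisymm (Submodule.span_le.2 ?_) (Submodule.span_le.2 ?_)
      · rintro _ ⟨a, rfl⟩
        exact neg_mem (Submodule.subset_span ⟨a, rfl⟩)
      · rintro _ ⟨a, rfl⟩
        have h3 : -B.X a ∈ Submodule.span ℝ (Set.range fun a => -B.X a) :=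
          Submodule.subset_span ⟨a, rfl⟩
        have h4 := neg_mem h3
        rwa [neg_neg] at h4
    rw [h2]
    exact h1

/-- The abstract data. -/
def ld (B : LieBasis G n) : YM.LD G N n := (fm B).toLD

lemma action_eq [NeZero l] (B : LieBasis G n) (U : Link d l → G) :
    action U = YM.act (ld B) U := rfl

/-- A Haar probability measure is invariant under right multiplications. -/
lemma right_inv {H : Type*} [Group H] [TopologicalSpace H] [IsTopologicalGroup H]
    [CompactSpace H] [MeasurableSpace H] [BorelSpace H] (μ : Measure H)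
    [IsProbabilityMeasure μ] [μ.IsHaarMeasure] : μ.IsMulRightInvariant := by
  refine ⟨fun g => ?_⟩
  have h1 : IsProbabilityMeasure (Measure.map (fun x => x * g) μ) :=
    Measure.isProbabilityMeasure_map (measurable_mul_const g).aemeasurable
  exact Measure.isHaarMeasure_eq_of_isProbabilityMeasure _ _

/-- A Haar probability measure is invariant under the inversion. -/
lemma inv_inv' {H : Type*} [Group H] [TopologicalSpace H] [IsTopologicalGroup H]
    [CompactSpace H] [MeasurableSpace H] [BorelSpace H] (μ : Measure H)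
    [IsProbabilityMeasure μ] [μ.IsHaarMeasure] : μ.IsInvInvariant := by
  have hr := right_inv μ
  refine ⟨?_⟩
  have h1 : IsProbabilityMeasure μ.inv :=
    Measure.isProbabilityMeasure_map measurable_inv.aemeasurable
  have h2 : μ.inv.IsMulLeftInvariant := inferInstance
  have h3 : μ.inv.IsHaarMeasure :=
    Measure.isHaarMeasure_of_isCompact_nonempty_interior μ.inv Set.univ isCompact_univ
      (by simp) (by simp) (by simp)
  exact Measure.isHaarMeasure_eq_of_isProbabilityMeasure _ _

section bridge

variable [CompactSpace G] [SecondCountableTopology G] [MeasurableSpace G] [BorelSpace G]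
  (μ : Measure G) [IsProbabilityMeasure μ] [μ.IsHaarMeasure] (B : LieBasis G n)

lemma per_cont : Continuous (per : (Link d l → G) → LinkZ d → G) :=
  continuous_pi fun _ => continuous_apply _

include B in
lemma action_cont [NeZero l] : Continuous (action : (Link d l → G) → ℝ) :=
  YM.act_cont (L := ld B)

include B in
lemma torus_prob [NeZero l] (β : ℝ) : IsProbabilityMeasure (torus l μ β : Measure (LinkZ d → G)) := by
  have hexp : Continuous fun U : Link d l → G => Real.exp (-(β * action U)) :=
    Real.continuous_exp.comp (continuous_const.mul (action_cont B)).neg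
  have hint : Integrable (fun U : Link d l → G =>
      Real.exp (-(β * action U))) (Measure.pi fun _ => μ) :=
    hexp.integrable_of_hasCompactSupport (HasCompactSupport.of_compactSpace _)
  have h1 := isProbabilityMeasure_tilted (f := fun U : Link d l → G =>
    -(β * action U)) hint
  exact Measure.isProbabilityMeasure_map per_cont.aemeasurable

lemma torus_eq [NeZero l] (β : ℝ) {F : (LinkZ d → G) → ℝ} (hF : Continuous F) :
    ∫ V, F V ∂(torus l μ β) =
      YM.EX μ (ld B) β (fun U : YM.Ed d l → G => F (YM.lf U)) := by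
  have := right_inv μ
  have := inv_inv' μ
  rw [SCHL.EX_int]
  unfold torus
  rw [integral_map per_cont.aemeasurable hF.aestronglyMeasurable]
  rfl

include B in
/-- existence of infinite volume limits -/
lemma exists_infVol (β : ℝ) : ∃ ν : Measure (LinkZ d → G), IsInfVol μ β ν := by
  have hP : ∀ j : ℕ, IsProbabilityMeasure (torus (2 * (j + 1)) μ β : Measure (LinkZ d → G)) :=
    fun j => torus_prob μ B β
  obtain ⟨Q, hQ⟩ : ∃ Q : ℕ → ProbabilityMeasure (LinkZ d → G), Q = fun j =>
    ⟨torus (2 * (j + 1)) μ β, hP j⟩ := ⟨_, rfl⟩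
  obtain ⟨ν, s, hs, hlim⟩ := CompactSpace.tendsto_subseq Q
  refine ⟨ν, ⟨inferInstance, s, hs.tendsto_atTop, fun F hF => ?_⟩⟩
  have h1 := (ProbabilityMeasure.tendsto_iff_forall_integral_tendsto.1 hlim)
    (BoundedContinuousFunction.mkOfCompact ⟨F, hF⟩)
  rw [hQ] at h1
  exact h1

/-- the laws of the theory in the sense of the helper files -/
lemma lmt {β : ℝ} {P : Measure (LinkZ d → G)} (hP : IsYM μ β P) : TV.Lmt μ (ld B) β P := by
  rcases hP with ⟨l, hl, hev, hβ, rfl⟩ | hP
  · refine ⟨torus_prob μ B β, fun F c hF h => ?_⟩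
    obtain ⟨m, rfl⟩ := even_iff_two_dvd.1 hev
    have hm0 : NeZero m := ⟨by
      rintro rfl
      exact (NeZero.ne (2 * 0)) rfl⟩
    rw [torus_eq μ B β hF]
    exact h m (by push_cast at hβ; exact hβ)
  · refine ⟨hP.prob, fun F c hF h => ?_⟩
    obtain ⟨s, hs, hlim⟩ := hP.lim
    refine le_of_tendsto (hlim F hF) ?_
    obtain ⟨M, hM⟩ := exists_nat_ge β
    filter_upwards [hs.eventually_ge_atTop M] with j hj
    rw [torus_eq μ B β hF]
    refine h (s j + 1) (hM.trans ?_)
    push_cast
    have : (M : ℝ) ≤ s j := by exact_mod_cast hj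
    have : (0 : ℝ) ≤ M := Nat.cast_nonneg _
    linarith

end bridge

lemma hol_eq (V : LinkZ d → G) (p : List (Fin d × Bool)) (x : Fin d → ℤ) :
    hol V x p = YM.hol V x p := by
  induction p generalizing x with
  | nil => rfl
  | cons s p ih =>
    obtain ⟨i, s⟩ := s
    cases s with
    | true => simp only [hol, YM.hol, ih]
    | false => simp only [hol, YM.hol, ih]

lemma links_eq (p : List (Fin d × Bool)) (x : Fin d → ℤ) : links x p = WL.lks x p := by
  induction p generalizing x with
  | nil => rfl
  | cons s p ih =>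
    obtain ⟨i, s⟩ := s
    cases s with
    | true => simp only [links, WL.lks, ih]
    | false => simp only [links, WL.lks, ih]

lemma walk_eq (k : ℕ) (z : Fin d → ℤ) : walk d k z = SCH.pk d k z := by
  induction k generalizing z with
  | zero => rfl
  | succ k ih => simp only [walk, SCH.pk, ih]

lemma green_eq (z : Fin d → ℤ) : green d z = SCH.green d z := by
  unfold green SCH.green
  simp only [walk_eq]

lemma inter_eq (p p' : List (Fin d × Bool)) : inter p p' =
    WL.QK (SCH.green d) (WL.lks 0 p) (WL.lks 0 p') := by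
  unfold inter WL.QK WL.sg
  simp only [links_eq, green_eq]

/-- the last step of the comb -/
lemma comb_list {w : Fin d → ℕ} {j : Fin d} (hlt : ∀ i < j, w i = 0) (hj : 0 < w j) :
    ∀ Lst : List (Fin d), Lst.Pairwise (· > ·) → j ∈ Lst →
      (Lst.flatMap fun i => List.replicate (w i) (i, true)) =
        (Lst.flatMap fun i => List.replicate ((w - YM.es j : Fin d → ℕ) i) (i, true)) ++
          [(j, true)] := by
  intro Lst
  induction Lst with
  | nil => intro _ h; simp at h
  | cons a Lst ih =>
    intro hp hm
    rw [List.pairwise_cons] at hp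
    obtain ⟨h1, h2⟩ := hp
    rw [List.flatMap_cons, List.flatMap_cons]
    by_cases haj : a = j
    · subst haj
      have e1 : ∀ v : Fin d → ℕ, (∀ i < a, v i = 0) →
          (Lst.flatMap fun i => List.replicate (v i) (i, true)) = [] := by
        intro v hv
        rw [List.flatMap_eq_nil_iff]
        intro i hi
        rw [hv i (h1 i hi)]
        rfl
      rw [e1 w hlt, e1 (w - YM.es a : Fin d → ℕ) fun i hi => by
        simp [hlt i hi], List.append_nil, List.append_nil]
      obtain ⟨q, hq⟩ : ∃ q, w a = q + 1 := ⟨w a - 1, by omega⟩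
      have e2 : (w - YM.es a : Fin d → ℕ) a = q := by simp [hq, YM.es]
      rw [e2, hq, List.replicate_succ']
    · have hm' : j ∈ Lst := by
        rcases List.mem_cons.1 hm with h | h
        · exact absurd h.symm haj
        · exact h
      rw [ih h2 hm', List.append_assoc]
      congr 1
      have : (w - YM.es j : Fin d → ℕ) a = w a := by simp [YM.es, Pi.single_eq_of_ne haj]
      rw [this]

lemma comb_eq (f : ℕ) (w : Fin d → ℕ) (hf : YM.sz w = f) : comb w = WL.cmb f w := by
  induction f generalizing w with
  | zero =>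
    have hw : ∀ i, w i = 0 := fun i => by
      by_contra hc
      have := YM.sz_sub (Nat.pos_of_ne_zero hc)
      omega
    unfold comb WL.cmb
    rw [List.flatMap_eq_nil_iff]
    intro i _
    rw [hw i]
    rfl
  | succ f ih =>
    have h : ∃ i, 0 < w i := by
      by_contra hc
      push Not at hc
      have : YM.sz w = 0 := Finset.sum_eq_zero fun i _ => Nat.le_zero.1 (hc i)
      omega
    rw [WL.cmb_succ, dif_pos h]
    obtain ⟨j, hj⟩ : ∃ j, j = YM.mi w h := ⟨_, rfl⟩
    have hjp : 0 < w j := by rw [hj]; exact YM.mi_pos w h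
    have hlt : ∀ i < j, w i = 0 := by
      intro i hi
      by_contra hc
      have h2 := YM.mi_le w h (Nat.pos_of_ne_zero hc)
      rw [← hj] at h2
      exact absurd hi (not_lt.2 h2)
    rw [← hj]
    have hs := YM.sz_sub hjp
    rw [← ih (w - YM.es j) (by omega)]
    have hpw : (List.finRange d).reverse.Pairwise (· > ·) := by
      rw [List.pairwise_reverse]
      exact List.pairwise_lt_finRange d
    exact comb_list hlt hjp _ hpw (by simp)

lemma lasso_eq (w : Fin d → ℕ) (i : Fin d) : lasso w i = TV.pth w i := by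
  unfold lasso TV.pth
  rw [comb_eq _ _ rfl, comb_eq _ _ rfl]
  rfl

/-- the base point of a link of the box -/
def wb {d R : ℕ} (e : BoxLink d R) : Fin d → ℕ := fun j => (e.1.1 j : ℕ)

lemma field_eq (B : LieBasis G n) (β : ℝ) (R : ℕ) (x : Fin d → ℤ) (V : LinkZ d → G) :
    field B β R x V = TV.XV (ld B) β x (wb (R := R)) (fun e => e.1.2) V := by
  funext q
  unfold field TV.XV BoxLink.loop
  rw [hol_eq, lasso_eq]
  congr 1
  have h1 : (B.X q.2)ᴴ = (fm B).X q.2 := by
    have h2 := (fm B).skewX q.2
    have h3 : (fm B).X q.2 = -B.X q.2 := rfl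
    rw [h3] at h2 ⊢
    rw [conjTranspose_neg, neg_neg] at h2
    have h4 := congrArg (fun M => -M) h2
    simpa using h4
  rw [h1]
  exact (YM.trX_apply (L := ld B) q.2 _).symm

lemma cov_eq (n d R : ℕ) : cov n d R =
    TV.sg0 (SCH.green d) n (wb (R := R)) (fun e : BoxLink d R => e.1.2) := by
  funext q q'
  unfold cov TV.sg0 BoxLink.loop
  rw [inter_eq, lasso_eq, lasso_eq]
  rfl

theorem result {N n d : ℕ} (hd : 3 ≤ d) (G : Subgroup (UU N)) (hG : IsClosed (G : Set (UU N)))
    [MeasurableSpace G] [BorelSpace G] (μ : Measure G) [IsProbabilityMeasure μ] [μ.IsHaarMeasure]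
    (B : LieBasis G n) :
    (∀ R, (cov n d R).PosSemidef) ∧ (∀ β, ∃ ν : Measure (LinkZ d → G), IsInfVol μ β ν) ∧
    ∃ C : ℝ, ∀ R : ℕ, 1 ≤ R → ∀ β : ℝ, 1 ≤ β → ∀ x : Fin d → ℤ,
      (∀ P : Measure (LinkZ d → G), IsYM μ β P →
        Close (P.map (field B β R x)) (gauss (cov n d R))
          (C * R ^ (3 * d + 4) / β ^ (1 / (96 * (d + 2)) : ℝ))) ∧
      (∀ P P' : Measure (LinkZ d → G), IsYM μ β P → IsYM μ β P' →
        Agree R x P P' (C * R ^ (3 * d + 4) / β ^ (1 / (96 * (d + 2)) : ℝ))) := by
  have : CompactSpace G := by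
    have h1 : IsCompact (G : Set (UU N)) := hG.isCompact
    exact isCompact_iff_compactSpace.1 h1
  have h00 : SecondCountableTopology (UU N) := TopologicalSpace.Subtype.secondCountableTopology _
  have : SecondCountableTopology G := TopologicalSpace.Subtype.secondCountableTopology _
  have := right_inv μ
  have := inv_inv' μ
  have hB1 : SCH.S_B1 := Pool.Agent.W585.SCH.t_B1
  have hTR : SCH.S_TR := SCH.a_TR
  obtain ⟨Cq, hCq, hq⟩ := WL.we_quad hG (fm B)
  have hρ : ∀ g : G, YM.dv (ld B) g = 0 → g = 1 := by
    intro g hg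
    have h1 : YM.mt g - 1 = 0 := norm_eq_zero.1 hg
    have h2 : YM.mt g = 1 := sub_eq_zero.1 h1
    exact Subtype.ext (Subtype.ext h2)
  obtain ⟨C1, hC1, h1⟩ := TV.TV_inf μ (L := ld B) hd hB1 hTR
  obtain ⟨C2, hC2, h2⟩ := TV.GI μ (L := ld B) hd hB1 hTR hCq.le hq hρ
  have hwR : ∀ (R : ℕ) (e : BoxLink d R) i, wb e i ≤ R := fun R e i =>
    Nat.lt_succ_iff.1 (e.1.1 i).2
  have hinj : ∀ (R : ℕ) (e e' : BoxLink d R), wb e = wb e' → e.1.2 = e'.1.2 → e = e' := by
    intro R e e' h h'
    refine Subtype.ext (Prod.ext (funext fun j => Fin.ext ?_) h')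
    exact congrFun h j
  have hall : ∀ (R : ℕ) (v : Fin d → ℕ) i, (∀ j, v j ≤ R) → v i + 1 ≤ R → (∃ j < i, 0 < v j) →
      ∃ e : BoxLink d R, wb e = v ∧ e.1.2 = i := by
    intro R v i hv hi hj
    exact ⟨⟨(fun j => ⟨v j, Nat.lt_succ_of_le (hv j)⟩, i), hi, hj⟩, rfl, rfl⟩
  have hbound : ∀ (R : ℕ) (β : ℝ), 1 ≤ β → ∀ C : ℝ, C ≤ max C1 C2 →
      C * R ^ (3 * d + 4) / β ^ (1 / (96 * (d + 2)) : ℝ) ≤
        max C1 C2 * R ^ (3 * d + 4) / β ^ (1 / (96 * (d + 2)) : ℝ) := by
    intro R β hβ C hC
    have : 0 < β ^ (1 / (96 * (d + 2)) : ℝ) := Real.rpow_pos_of_pos (by linarith) _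
    gcongr
  have hfc : ∀ (β : ℝ) (R : ℕ) (x : Fin d → ℤ), Measurable (field B β R x) := by
    intro β R x
    have h3 : field B β R x = TV.XV (ld B) β x (wb (R := R)) (fun e => e.1.2) :=
      funext fun V => field_eq B β R x V
    rw [h3]
    exact (TV.XV_cont _ _ _).measurable
  refine ⟨fun R => ?_, exists_infVol μ B, max C1 C2, fun R hR β hβ x =>
    ⟨fun P hP Φ hΦ hΦ1 => ?_, fun P P' hP hP' F hF F1 Fg Fb => ?_⟩⟩
  · rw [cov_eq]
    exact TV.sg0_psd (R := R) hd hB1 hTR (hwR R)
  · rw [integral_map (hfc β R x).aemeasurable hΦ.aestronglyMeasurable, cov_eq]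
    simp only [field_eq]
    refine (h1 R hR β hβ P (lmt μ B hP) x (BoxLink d R) (wb (R := R)) (fun e => e.1.2) (hwR R)
      (fun e => e.2.1) (fun e => e.2.2) (hinj R) Φ hΦ hΦ1).trans (hbound R β hβ _ (le_max_left _ _))
  · refine (h2 R hR β hβ P P' (lmt μ B hP) (lmt μ B hP') x (BoxLink d R) (wb (R := R))
      (fun e => e.1.2) (hwR R) (fun e => e.2.1) (fun e => e.2.2) (hinj R) (hall R) F hF F1 Fg
      fun V V' h => Fb V V' fun y i hy hi => ?_).trans (hbound R β hβ _ (le_max_right _ _))
    have h3 := h (fun j => (y j - x j).toNat) i (fun j => by have := hy j; omega)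
      (by have := hy i; omega)
    have h4 : x + WL.nz (fun j => (y j - x j).toNat) = y := by
      funext j
      have := hy j
      simp only [Pi.add_apply, WL.nz]
      omega
    rw [h4] at h3
    exact h3

end

end Pool.Agent.Results.MP_7f377f_mp.TotalVariationLocalLaw
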